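import Pool.Agent.H70.AB.W76.Data

/-!
# Anchors and witnesses W76
-/

namespace Pool.Agent.H70.AB.W76

/-- anchors -/
def anc12 : List (ℕ × ℕ × List ℕ) :=
  List.cons (nat_lit 240980, nat_lit 0, List.cons (nat_lit 41770) <| List.cons (nat_lit 63243) <| List.cons (nat_lit 14956) <| List.cons (nat_lit 44620) <| List.cons (nat_lit 27408) <| List.cons (nat_lit 61561) <| List.nil) <|
  List.cons (nat_lit 241481, nat_lit 0, List.cons (nat_lit 16947) <| List.cons (nat_lit 24867) <| List.cons (nat_lit 58324) <| List.cons (nat_lit 55393) <| List.cons (nat_lit 39376) <| List.cons (nat_lit 13353) <| List.nil) <|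
  List.cons (nat_lit 241982, nat_lit 0, List.cons (nat_lit 23740) <| List.cons (nat_lit 42892) <| List.cons (nat_lit 47066) <| List.cons (nat_lit 6106) <| List.cons (nat_lit 58448) <| List.nil) <|
  List.cons (nat_lit 242483, nat_lit 0, List.cons (nat_lit 59859) <| List.cons (nat_lit 58945) <| List.cons (nat_lit 2500) <| List.cons (nat_lit 36771) <| List.cons (nat_lit 62097) <| List.cons (nat_lit 32488) <| List.nil) <|
  List.cons (nat_lit 242984, nat_lit 0, List.cons (nat_lit 30892) <| List.cons (nat_lit 28444) <| List.cons (nat_lit 54652) <| List.cons (nat_lit 62170) <| List.cons (nat_lit 17520) <| List.nil) <|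
  List.cons (nat_lit 243485, nat_lit 0, List.cons (nat_lit 2434) <| List.cons (nat_lit 58084) <| List.cons (nat_lit 50500) <| List.cons (nat_lit 7922) <| List.cons (nat_lit 4649) <| List.nil) <|
  List.cons (nat_lit 243986, nat_lit 0, List.cons (nat_lit 33483) <| List.cons (nat_lit 49755) <| List.cons (nat_lit 35644) <| List.cons (nat_lit 18988) <| List.cons (nat_lit 55434) <| List.cons (nat_lit 36929) <| List.nil) <|
  List.cons (nat_lit 244487, nat_lit 0, List.cons (nat_lit 29715) <| List.cons (nat_lit 33220) <| List.cons (nat_lit 3556) <| List.cons (nat_lit 23619) <| List.cons (nat_lit 6128) <| List.cons (nat_lit 21401) <| List.nil) <|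
  List.cons (nat_lit 244988, nat_lit 0, List.cons (nat_lit 39963) <| List.cons (nat_lit 9723) <| List.cons (nat_lit 4300) <| List.cons (nat_lit 50907) <| List.cons (nat_lit 53849) <| List.cons (nat_lit 47840) <| List.nil) <|
  List.cons (nat_lit 245489, nat_lit 0, List.cons (nat_lit 43347) <| List.cons (nat_lit 24099) <| List.cons (nat_lit 49588) <| List.cons (nat_lit 3457) <| List.cons (nat_lit 24418) <| List.cons (nat_lit 20136) <| List.nil) <|
  List.cons (nat_lit 245990, nat_lit 0, List.cons (nat_lit 42219) <| List.cons (nat_lit 25467) <| List.cons (nat_lit 41882) <| List.cons (nat_lit 11692) <| List.cons (nat_lit 10474) <| List.cons (nat_lit 12817) <| List.cons (nat_lit 14952) <| List.nil) <|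
  List.cons (nat_lit 246491, nat_lit 0, List.cons (nat_lit 43683) <| List.cons (nat_lit 53810) <| List.cons (nat_lit 59236) <| List.cons (nat_lit 3697) <| List.cons (nat_lit 48593) <| List.cons (nat_lit 3171) <| List.cons (nat_lit 19657) <| List.nil) <|
  List.cons (nat_lit 246992, nat_lit 0, List.cons (nat_lit 4587) <| List.cons (nat_lit 21004) <| List.cons (nat_lit 23738) <| List.cons (nat_lit 11432) <| List.cons (nat_lit 53665) <| List.cons (nat_lit 38568) <| List.cons (nat_lit 2904) <| List.nil) <|
  List.cons (nat_lit 247151, nat_lit 0, List.cons (nat_lit 45844) <| List.cons (nat_lit 12964) <| List.cons (nat_lit 1632) <| List.cons (nat_lit 31073) <| List.cons (nat_lit 33992) <| List.nil) <|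
  []

/-- anchors -/
def anc11 : List (ℕ × ℕ × List ℕ) :=
  List.cons (nat_lit 220940, nat_lit 0, List.cons (nat_lit 52026) <| List.cons (nat_lit 7612) <| List.cons (nat_lit 34396) <| List.cons (nat_lit 1563) <| List.cons (nat_lit 37617) <| List.nil) <|
  List.cons (nat_lit 221441, nat_lit 0, List.cons (nat_lit 40419) <| List.cons (nat_lit 62356) <| List.cons (nat_lit 23188) <| List.cons (nat_lit 5057) <| List.cons (nat_lit 15961) <| List.cons (nat_lit 29329) <| List.nil) <|
  List.cons (nat_lit 221942, nat_lit 0, List.cons (nat_lit 1660) <| List.cons (nat_lit 43756) <| List.cons (nat_lit 16394) <| List.cons (nat_lit 60969) <| List.cons (nat_lit 63963) <| List.cons (nat_lit 62353) <| List.nil) <|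
  List.cons (nat_lit 222443, nat_lit 0, List.cons (nat_lit 24723) <| List.cons (nat_lit 43107) <| List.cons (nat_lit 15604) <| List.cons (nat_lit 21219) <| List.cons (nat_lit 48992) <| List.cons (nat_lit 32008) <| List.nil) <|
  List.cons (nat_lit 222944, nat_lit 0, List.cons (nat_lit 19948) <| List.cons (nat_lit 35740) <| List.cons (nat_lit 57100) <| List.cons (nat_lit 3368) <| List.cons (nat_lit 35456) <| List.nil) <|
  List.cons (nat_lit 223445, nat_lit 0, List.cons (nat_lit 45843) <| List.cons (nat_lit 32017) <| List.cons (nat_lit 3364) <| List.cons (nat_lit 14978) <| List.cons (nat_lit 20770) <| List.cons (nat_lit 4921) <| List.nil) <|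
  List.cons (nat_lit 223946, nat_lit 0, List.cons (nat_lit 47931) <| List.cons (nat_lit 45964) <| List.cons (nat_lit 61276) <| List.cons (nat_lit 16153) <| List.cons (nat_lit 58617) <| List.cons (nat_lit 38929) <| List.nil) <|
  List.cons (nat_lit 224447, nat_lit 0, List.cons (nat_lit 35811) <| List.cons (nat_lit 27795) <| List.cons (nat_lit 17428) <| List.cons (nat_lit 1872) <| List.cons (nat_lit 930) <| List.cons (nat_lit 43432) <| List.nil) <|
  List.cons (nat_lit 224948, nat_lit 0, List.cons (nat_lit 6570) <| List.cons (nat_lit 61563) <| List.cons (nat_lit 3916) <| List.cons (nat_lit 56428) <| List.cons (nat_lit 58240) <| List.cons (nat_lit 9866) <| List.nil) <|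
  List.cons (nat_lit 225449, nat_lit 0, List.cons (nat_lit 23091) <| List.cons (nat_lit 51028) <| List.cons (nat_lit 15700) <| List.cons (nat_lit 62898) <| List.cons (nat_lit 39168) <| List.cons (nat_lit 64760) <| List.nil) <|
  List.cons (nat_lit 225950, nat_lit 0, List.cons (nat_lit 21915) <| List.cons (nat_lit 4012) <| List.cons (nat_lit 23260) <| List.cons (nat_lit 17212) <| List.cons (nat_lit 34233) <| List.cons (nat_lit 6128) <| List.nil) <|
  List.cons (nat_lit 226451, nat_lit 0, List.cons (nat_lit 13060) <| List.cons (nat_lit 43012) <| List.cons (nat_lit 29044) <| List.cons (nat_lit 49266) <| List.cons (nat_lit 59417) <| List.nil) <|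
  List.cons (nat_lit 226952, nat_lit 0, List.cons (nat_lit 37899) <| List.cons (nat_lit 60412) <| List.cons (nat_lit 46780) <| List.cons (nat_lit 1786) <| List.cons (nat_lit 4288) <| List.cons (nat_lit 64010) <| List.nil) <|
  List.cons (nat_lit 227453, nat_lit 0, List.cons (nat_lit 55780) <| List.cons (nat_lit 47427) <| List.cons (nat_lit 5188) <| List.cons (nat_lit 62945) <| List.cons (nat_lit 15001) <| List.cons (nat_lit 10801) <| List.nil) <|
  List.cons (nat_lit 227954, nat_lit 0, List.cons (nat_lit 24700) <| List.cons (nat_lit 54892) <| List.cons (nat_lit 19994) <| List.cons (nat_lit 22266) <| List.cons (nat_lit 15297) <| List.nil) <|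
  List.cons (nat_lit 228455, nat_lit 0, List.cons (nat_lit 25348) <| List.cons (nat_lit 20692) <| List.cons (nat_lit 64612) <| List.cons (nat_lit 58290) <| List.cons (nat_lit 44217) <| List.nil) <|
  List.cons (nat_lit 228956, nat_lit 0, List.cons (nat_lit 36747) <| List.cons (nat_lit 55275) <| List.cons (nat_lit 27628) <| List.cons (nat_lit 25657) <| List.cons (nat_lit 21594) <| List.cons (nat_lit 54304) <| List.nil) <|
  List.cons (nat_lit 229457, nat_lit 0, List.cons (nat_lit 1732) <| List.cons (nat_lit 29908) <| List.cons (nat_lit 33840) <| List.cons (nat_lit 38273) <| List.cons (nat_lit 28745) <| List.nil) <|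
  List.cons (nat_lit 229958, nat_lit 0, List.cons (nat_lit 32859) <| List.cons (nat_lit 22732) <| List.cons (nat_lit 36796) <| List.cons (nat_lit 14537) <| List.cons (nat_lit 29872) <| List.nil) <|
  List.cons (nat_lit 230459, nat_lit 0, List.cons (nat_lit 1059) <| List.cons (nat_lit 1827) <| List.cons (nat_lit 57316) <| List.cons (nat_lit 25824) <| List.cons (nat_lit 17922) <| List.cons (nat_lit 57032) <| List.nil) <|
  List.cons (nat_lit 230960, nat_lit 0, List.cons (nat_lit 3772) <| List.cons (nat_lit 57580) <| List.cons (nat_lit 39675) <| List.cons (nat_lit 48824) <| List.cons (nat_lit 59840) <| List.nil) <|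
  List.cons (nat_lit 231461, nat_lit 0, List.cons (nat_lit 53187) <| List.cons (nat_lit 20403) <| List.cons (nat_lit 7588) <| List.cons (nat_lit 53761) <| List.cons (nat_lit 40817) <| List.cons (nat_lit 45913) <| List.nil) <|
  List.cons (nat_lit 231962, nat_lit 0, List.cons (nat_lit 138) <| List.cons (nat_lit 6795) <| List.cons (nat_lit 56907) <| List.cons (nat_lit 48940) <| List.cons (nat_lit 26379) <| List.cons (nat_lit 6072) <| List.cons (nat_lit 28304) <| List.nil) <|
  List.cons (nat_lit 232463, nat_lit 0, List.cons (nat_lit 35188) <| List.cons (nat_lit 35378) <| List.cons (nat_lit 39169) <| List.cons (nat_lit 33730) <| List.cons (nat_lit 62185) <| List.cons (nat_lit 289) <| List.nil) <|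
  List.cons (nat_lit 232964, nat_lit 0, List.cons (nat_lit 33723) <| List.cons (nat_lit 52971) <| List.cons (nat_lit 6988) <| List.cons (nat_lit 123) <| List.cons (nat_lit 41913) <| List.cons (nat_lit 45648) <| List.nil) <|
  List.cons (nat_lit 233465, nat_lit 0, List.cons (nat_lit 24532) <| List.cons (nat_lit 31107) <| List.cons (nat_lit 37058) <| List.cons (nat_lit 4144) <| List.cons (nat_lit 64273) <| List.cons (nat_lit 7656) <| List.nil) <|
  List.cons (nat_lit 233966, nat_lit 0, List.cons (nat_lit 21964) <| List.cons (nat_lit 55036) <| List.cons (nat_lit 64345) <| List.cons (nat_lit 61912) <| List.cons (nat_lit 43760) <| List.cons (nat_lit 64729) <| List.nil) <|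
  List.cons (nat_lit 234467, nat_lit 0, List.cons (nat_lit 57604) <| List.cons (nat_lit 64420) <| List.cons (nat_lit 41089) <| List.cons (nat_lit 19217) <| List.cons (nat_lit 57465) <| List.nil) <|
  List.cons (nat_lit 234968, nat_lit 0, List.cons (nat_lit 8763) <| List.cons (nat_lit 6075) <| List.cons (nat_lit 32716) <| List.cons (nat_lit 62620) <| List.cons (nat_lit 46810) <| List.cons (nat_lit 54833) <| List.nil) <|
  List.cons (nat_lit 235469, nat_lit 0, List.cons (nat_lit 33267) <| List.cons (nat_lit 34227) <| List.cons (nat_lit 20884) <| List.cons (nat_lit 44128) <| List.cons (nat_lit 50739) <| List.cons (nat_lit 63865) <| List.nil) <|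
  List.cons (nat_lit 235970, nat_lit 0, List.cons (nat_lit 39915) <| List.cons (nat_lit 7275) <| List.cons (nat_lit 45724) <| List.cons (nat_lit 49128) <| List.cons (nat_lit 58362) <| List.cons (nat_lit 20017) <| List.nil) <|
  List.cons (nat_lit 236471, nat_lit 0, List.cons (nat_lit 26547) <| List.cons (nat_lit 55300) <| List.cons (nat_lit 3124) <| List.cons (nat_lit 44259) <| List.cons (nat_lit 3329) <| List.cons (nat_lit 52440) <| List.nil) <|
  List.cons (nat_lit 236972, nat_lit 0, List.cons (nat_lit 59740) <| List.cons (nat_lit 9916) <| List.cons (nat_lit 26955) <| List.cons (nat_lit 61928) <| List.cons (nat_lit 4817) <| List.nil) <|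
  List.cons (nat_lit 237473, nat_lit 0, List.cons (nat_lit 19971) <| List.cons (nat_lit 62884) <| List.cons (nat_lit 15555) <| List.cons (nat_lit 55361) <| List.cons (nat_lit 56257) <| List.cons (nat_lit 4216) <| List.nil) <|
  List.cons (nat_lit 237974, nat_lit 0, List.cons (nat_lit 52731) <| List.cons (nat_lit 42652) <| List.cons (nat_lit 19948) <| List.cons (nat_lit 40281) <| List.cons (nat_lit 32544) <| List.nil) <|
  List.cons (nat_lit 238475, nat_lit 0, List.cons (nat_lit 18675) <| List.cons (nat_lit 28560) <| List.cons (nat_lit 45508) <| List.cons (nat_lit 18386) <| List.cons (nat_lit 44098) <| List.cons (nat_lit 44985) <| List.nil) <|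
  List.cons (nat_lit 238976, nat_lit 0, List.cons (nat_lit 23308) <| List.cons (nat_lit 28107) <| List.cons (nat_lit 41115) <| List.cons (nat_lit 6970) <| List.cons (nat_lit 6625) <| List.cons (nat_lit 54699) <| List.nil) <|
  List.cons (nat_lit 239477, nat_lit 0, List.cons (nat_lit 17668) <| List.cons (nat_lit 48244) <| List.cons (nat_lit 16080) <| List.cons (nat_lit 6369) <| List.cons (nat_lit 26072) <| List.nil) <|
  List.cons (nat_lit 239978, nat_lit 0, List.cons (nat_lit 5884) <| List.cons (nat_lit 19948) <| List.cons (nat_lit 56476) <| List.cons (nat_lit 50392) <| List.cons (nat_lit 21488) <| List.nil) <|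
  List.cons (nat_lit 240479, nat_lit 0, List.cons (nat_lit 51412) <| List.cons (nat_lit 25683) <| List.cons (nat_lit 64705) <| List.cons (nat_lit 17312) <| List.cons (nat_lit 24579) <| List.cons (nat_lit 49817) <| List.nil) <|
  anc12

/-- anchors -/
def anc10 : List (ℕ × ℕ × List ℕ) :=
  List.cons (nat_lit 200900, nat_lit 0, List.cons (nat_lit 55467) <| List.cons (nat_lit 9580) <| List.cons (nat_lit 18172) <| List.cons (nat_lit 54329) <| List.cons (nat_lit 2144) <| List.cons (nat_lit 62138) <| List.nil) <|
  List.cons (nat_lit 201401, nat_lit 0, List.cons (nat_lit 44259) <| List.cons (nat_lit 18724) <| List.cons (nat_lit 48244) <| List.cons (nat_lit 402) <| List.cons (nat_lit 6432) <| List.cons (nat_lit 33080) <| List.nil) <|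
  List.cons (nat_lit 201902, nat_lit 0, List.cons (nat_lit 22827) <| List.cons (nat_lit 17642) <| List.cons (nat_lit 1564) <| List.cons (nat_lit 45816) <| List.cons (nat_lit 31720) <| List.cons (nat_lit 16896) <| List.nil) <|
  List.cons (nat_lit 202403, nat_lit 0, List.cons (nat_lit 14355) <| List.cons (nat_lit 46275) <| List.cons (nat_lit 27891) <| List.cons (nat_lit 40372) <| List.cons (nat_lit 51105) <| List.cons (nat_lit 61593) <| List.nil) <|
  List.cons (nat_lit 202904, nat_lit 0, List.cons (nat_lit 30219) <| List.cons (nat_lit 52008) <| List.cons (nat_lit 15483) <| List.cons (nat_lit 17740) <| List.cons (nat_lit 4696) <| List.cons (nat_lit 23217) <| List.cons (nat_lit 51819) <| List.nil) <|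
  List.cons (nat_lit 203405, nat_lit 0, List.cons (nat_lit 63555) <| List.cons (nat_lit 35427) <| List.cons (nat_lit 21988) <| List.cons (nat_lit 31633) <| List.cons (nat_lit 44673) <| List.cons (nat_lit 47688) <| List.nil) <|
  List.cons (nat_lit 203906, nat_lit 0, List.cons (nat_lit 39291) <| List.cons (nat_lit 34683) <| List.cons (nat_lit 53932) <| List.cons (nat_lit 7273) <| List.cons (nat_lit 1098) <| List.cons (nat_lit 12560) <| List.nil) <|
  List.cons (nat_lit 204407, nat_lit 0, List.cons (nat_lit 36051) <| List.cons (nat_lit 21459) <| List.cons (nat_lit 42772) <| List.cons (nat_lit 4707) <| List.cons (nat_lit 2706) <| List.cons (nat_lit 48825) <| List.nil) <|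
  List.cons (nat_lit 204908, nat_lit 0, List.cons (nat_lit 45802) <| List.cons (nat_lit 43276) <| List.cons (nat_lit 10108) <| List.cons (nat_lit 5980) <| List.cons (nat_lit 19857) <| List.nil) <|
  List.cons (nat_lit 205409, nat_lit 0, List.cons (nat_lit 56836) <| List.cons (nat_lit 34612) <| List.cons (nat_lit 30531) <| List.cons (nat_lit 3042) <| List.cons (nat_lit 42904) <| List.cons (nat_lit 5475) <| List.nil) <|
  List.cons (nat_lit 205910, nat_lit 0, List.cons (nat_lit 1948) <| List.cons (nat_lit 12316) <| List.cons (nat_lit 27338) <| List.cons (nat_lit 47225) <| List.cons (nat_lit 9616) <| List.nil) <|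
  List.cons (nat_lit 206411, nat_lit 0, List.cons (nat_lit 8308) <| List.cons (nat_lit 24772) <| List.cons (nat_lit 48820) <| List.cons (nat_lit 26673) <| List.cons (nat_lit 34169) <| List.cons (nat_lit 63362) <| List.nil) <|
  List.cons (nat_lit 206912, nat_lit 0, List.cons (nat_lit 9004) <| List.cons (nat_lit 58972) <| List.cons (nat_lit 55228) <| List.cons (nat_lit 22426) <| List.cons (nat_lit 50848) <| List.nil) <|
  List.cons (nat_lit 207413, nat_lit 0, List.cons (nat_lit 10228) <| List.cons (nat_lit 6052) <| List.cons (nat_lit 61732) <| List.cons (nat_lit 30354) <| List.cons (nat_lit 47625) <| List.nil) <|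
  List.cons (nat_lit 207914, nat_lit 0, List.cons (nat_lit 48122) <| List.cons (nat_lit 46155) <| List.cons (nat_lit 19228) <| List.cons (nat_lit 48411) <| List.cons (nat_lit 60713) <| List.cons (nat_lit 17249) <| List.cons (nat_lit 59882) <| List.nil) <|
  List.cons (nat_lit 208415, nat_lit 0, List.cons (nat_lit 25234) <| List.cons (nat_lit 25107) <| List.cons (nat_lit 19728) <| List.cons (nat_lit 47668) <| List.cons (nat_lit 32449) <| List.cons (nat_lit 1881) <| List.nil) <|
  List.cons (nat_lit 208916, nat_lit 0, List.cons (nat_lit 1228) <| List.cons (nat_lit 20620) <| List.cons (nat_lit 57962) <| List.cons (nat_lit 25978) <| List.cons (nat_lit 37649) <| List.cons (nat_lit 29786) <| List.nil) <|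
  List.cons (nat_lit 209417, nat_lit 0, List.cons (nat_lit 51507) <| List.cons (nat_lit 13492) <| List.cons (nat_lit 14883) <| List.cons (nat_lit 23284) <| List.cons (nat_lit 27184) <| List.cons (nat_lit 16584) <| List.nil) <|
  List.cons (nat_lit 209918, nat_lit 0, List.cons (nat_lit 4780) <| List.cons (nat_lit 57724) <| List.cons (nat_lit 14522) <| List.cons (nat_lit 4184) <| List.cons (nat_lit 27409) <| List.nil) <|
  List.cons (nat_lit 210419, nat_lit 0, List.cons (nat_lit 2434) <| List.cons (nat_lit 64275) <| List.cons (nat_lit 24051) <| List.cons (nat_lit 24580) <| List.cons (nat_lit 31298) <| List.cons (nat_lit 5353) <| List.nil) <|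
  List.cons (nat_lit 210920, nat_lit 0, List.cons (nat_lit 61131) <| List.cons (nat_lit 55323) <| List.cons (nat_lit 30652) <| List.cons (nat_lit 35019) <| List.cons (nat_lit 6680) <| List.cons (nat_lit 24128) <| List.nil) <|
  List.cons (nat_lit 211421, nat_lit 0, List.cons (nat_lit 15891) <| List.cons (nat_lit 41571) <| List.cons (nat_lit 19156) <| List.cons (nat_lit 22082) <| List.cons (nat_lit 32418) <| List.cons (nat_lit 51785) <| List.nil) <|
  List.cons (nat_lit 211922, nat_lit 0, List.cons (nat_lit 56619) <| List.cons (nat_lit 45579) <| List.cons (nat_lit 34012) <| List.cons (nat_lit 61467) <| List.cons (nat_lit 50298) <| List.cons (nat_lit 31745) <| List.nil) <|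
  List.cons (nat_lit 212423, nat_lit 0, List.cons (nat_lit 59859) <| List.cons (nat_lit 33315) <| List.cons (nat_lit 14884) <| List.cons (nat_lit 6050) <| List.cons (nat_lit 54992) <| List.cons (nat_lit 18425) <| List.nil) <|
  List.cons (nat_lit 212924, nat_lit 0, List.cons (nat_lit 56091) <| List.cons (nat_lit 63384) <| List.cons (nat_lit 64012) <| List.cons (nat_lit 60120) <| List.cons (nat_lit 6426) <| List.cons (nat_lit 62481) <| List.nil) <|
  List.cons (nat_lit 213425, nat_lit 0, List.cons (nat_lit 6868) <| List.cons (nat_lit 532) <| List.cons (nat_lit 31200) <| List.cons (nat_lit 48161) <| List.cons (nat_lit 55160) <| List.nil) <|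
  List.cons (nat_lit 213926, nat_lit 0, List.cons (nat_lit 46252) <| List.cons (nat_lit 50140) <| List.cons (nat_lit 52920) <| List.cons (nat_lit 58216) <| List.cons (nat_lit 26465) <| List.nil) <|
  List.cons (nat_lit 214427, nat_lit 0, List.cons (nat_lit 10852) <| List.cons (nat_lit 46132) <| List.cons (nat_lit 1827) <| List.cons (nat_lit 9712) <| List.cons (nat_lit 16873) <| List.nil) <|
  List.cons (nat_lit 214928, nat_lit 0, List.cons (nat_lit 25611) <| List.cons (nat_lit 21770) <| List.cons (nat_lit 44716) <| List.cons (nat_lit 22923) <| List.cons (nat_lit 51368) <| List.cons (nat_lit 6129) <| List.nil) <|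
  List.cons (nat_lit 215429, nat_lit 0, List.cons (nat_lit 19107) <| List.cons (nat_lit 61731) <| List.cons (nat_lit 30052) <| List.cons (nat_lit 11857) <| List.cons (nat_lit 7312) <| List.cons (nat_lit 57368) <| List.nil) <|
  List.cons (nat_lit 215930, nat_lit 0, List.cons (nat_lit 9628) <| List.cons (nat_lit 3868) <| List.cons (nat_lit 30025) <| List.cons (nat_lit 60858) <| List.cons (nat_lit 52737) <| List.nil) <|
  List.cons (nat_lit 216431, nat_lit 0, List.cons (nat_lit 819) <| List.cons (nat_lit 37635) <| List.cons (nat_lit 52036) <| List.cons (nat_lit 15844) <| List.cons (nat_lit 33394) <| List.cons (nat_lit 35689) <| List.nil) <|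
  List.cons (nat_lit 216932, nat_lit 0, List.cons (nat_lit 24843) <| List.cons (nat_lit 63964) <| List.cons (nat_lit 32332) <| List.cons (nat_lit 58664) <| List.cons (nat_lit 19648) <| List.nil) <|
  List.cons (nat_lit 217433, nat_lit 0, List.cons (nat_lit 60291) <| List.cons (nat_lit 37875) <| List.cons (nat_lit 1252) <| List.cons (nat_lit 13396) <| List.cons (nat_lit 59297) <| List.cons (nat_lit 9353) <| List.nil) <|
  List.cons (nat_lit 217934, nat_lit 0, List.cons (nat_lit 45723) <| List.cons (nat_lit 44714) <| List.cons (nat_lit 62188) <| List.cons (nat_lit 54362) <| List.cons (nat_lit 39848) <| List.cons (nat_lit 34752) <| List.nil) <|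
  List.cons (nat_lit 218435, nat_lit 0, List.cons (nat_lit 25012) <| List.cons (nat_lit 26597) <| List.cons (nat_lit 54354) <| List.cons (nat_lit 31865) <| List.nil) <|
  List.cons (nat_lit 218936, nat_lit 0, List.cons (nat_lit 51579) <| List.cons (nat_lit 3435) <| List.cons (nat_lit 27148) <| List.cons (nat_lit 35548) <| List.cons (nat_lit 48392) <| List.cons (nat_lit 41953) <| List.nil) <|
  List.cons (nat_lit 219437, nat_lit 0, List.cons (nat_lit 37155) <| List.cons (nat_lit 31250) <| List.cons (nat_lit 8260) <| List.cons (nat_lit 29187) <| List.cons (nat_lit 64498) <| List.cons (nat_lit 46456) <| List.nil) <|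
  List.cons (nat_lit 219938, nat_lit 0, List.cons (nat_lit 33147) <| List.cons (nat_lit 4395) <| List.cons (nat_lit 52059) <| List.cons (nat_lit 47594) <| List.cons (nat_lit 39738) <| List.cons (nat_lit 24241) <| List.nil) <|
  List.cons (nat_lit 220439, nat_lit 0, List.cons (nat_lit 5860) <| List.cons (nat_lit 27412) <| List.cons (nat_lit 64179) <| List.cons (nat_lit 22482) <| List.cons (nat_lit 553) <| List.nil) <|
  anc11

/-- anchors -/
def anc9 : List (ℕ × ℕ × List ℕ) :=
  List.cons (nat_lit 180860, nat_lit 0, List.cons (nat_lit 7323) <| List.cons (nat_lit 47307) <| List.cons (nat_lit 33580) <| List.cons (nat_lit 61081) <| List.cons (nat_lit 23914) <| List.cons (nat_lit 32273) <| List.nil) <|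
  List.cons (nat_lit 181361, nat_lit 0, List.cons (nat_lit 28036) <| List.cons (nat_lit 64756) <| List.cons (nat_lit 62450) <| List.cons (nat_lit 52496) <| List.cons (nat_lit 42537) <| List.nil) <|
  List.cons (nat_lit 181862, nat_lit 0, List.cons (nat_lit 64059) <| List.cons (nat_lit 54508) <| List.cons (nat_lit 41116) <| List.cons (nat_lit 19001) <| List.cons (nat_lit 56089) <| List.cons (nat_lit 25601) <| List.nil) <|
  List.cons (nat_lit 182363, nat_lit 0, List.cons (nat_lit 54148) <| List.cons (nat_lit 37108) <| List.cons (nat_lit 9121) <| List.cons (nat_lit 1264) <| List.cons (nat_lit 584) <| List.nil) <|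
  List.cons (nat_lit 182864, nat_lit 0, List.cons (nat_lit 21818) <| List.cons (nat_lit 50140) <| List.cons (nat_lit 10924) <| List.cons (nat_lit 8344) <| List.cons (nat_lit 120) <| List.cons (nat_lit 9873) <| List.nil) <|
  List.cons (nat_lit 183365, nat_lit 0, List.cons (nat_lit 58131) <| List.cons (nat_lit 30338) <| List.cons (nat_lit 7060) <| List.cons (nat_lit 13632) <| List.cons (nat_lit 12946) <| List.cons (nat_lit 42024) <| List.nil) <|
  List.cons (nat_lit 183866, nat_lit 0, List.cons (nat_lit 16204) <| List.cons (nat_lit 37708) <| List.cons (nat_lit 53547) <| List.cons (nat_lit 27305) <| List.cons (nat_lit 34721) <| List.nil) <|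
  List.cons (nat_lit 184367, nat_lit 0, List.cons (nat_lit 3747) <| List.cons (nat_lit 6723) <| List.cons (nat_lit 5524) <| List.cons (nat_lit 33410) <| List.cons (nat_lit 26128) <| List.cons (nat_lit 13049) <| List.nil) <|
  List.cons (nat_lit 184868, nat_lit 0, List.cons (nat_lit 8188) <| List.cons (nat_lit 57100) <| List.cons (nat_lit 21867) <| List.cons (nat_lit 64698) <| List.cons (nat_lit 44641) <| List.nil) <|
  List.cons (nat_lit 185369, nat_lit 0, List.cons (nat_lit 32692) <| List.cons (nat_lit 20356) <| List.cons (nat_lit 11235) <| List.cons (nat_lit 15808) <| List.cons (nat_lit 53193) <| List.nil) <|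
  List.cons (nat_lit 185870, nat_lit 0, List.cons (nat_lit 11451) <| List.cons (nat_lit 10298) <| List.cons (nat_lit 6316) <| List.cons (nat_lit 26812) <| List.cons (nat_lit 46602) <| List.cons (nat_lit 20656) <| List.nil) <|
  List.cons (nat_lit 186371, nat_lit 0, List.cons (nat_lit 41667) <| List.cons (nat_lit 22467) <| List.cons (nat_lit 17668) <| List.cons (nat_lit 6531) <| List.cons (nat_lit 6178) <| List.cons (nat_lit 18809) <| List.nil) <|
  List.cons (nat_lit 186872, nat_lit 0, List.cons (nat_lit 25707) <| List.cons (nat_lit 46204) <| List.cons (nat_lit 17596) <| List.cons (nat_lit 43145) <| List.cons (nat_lit 35307) <| List.cons (nat_lit 51153) <| List.nil) <|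
  List.cons (nat_lit 187373, nat_lit 0, List.cons (nat_lit 51604) <| List.cons (nat_lit 63364) <| List.cons (nat_lit 12148) <| List.cons (nat_lit 12176) <| List.cons (nat_lit 40905) <| List.nil) <|
  List.cons (nat_lit 187874, nat_lit 0, List.cons (nat_lit 31323) <| List.cons (nat_lit 40587) <| List.cons (nat_lit 29884) <| List.cons (nat_lit 30282) <| List.cons (nat_lit 42074) <| List.cons (nat_lit 11984) <| List.nil) <|
  List.cons (nat_lit 188375, nat_lit 0, List.cons (nat_lit 58372) <| List.cons (nat_lit 16468) <| List.cons (nat_lit 2404) <| List.cons (nat_lit 49425) <| List.cons (nat_lit 52264) <| List.nil) <|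
  List.cons (nat_lit 188876, nat_lit 0, List.cons (nat_lit 8331) <| List.cons (nat_lit 62475) <| List.cons (nat_lit 44812) <| List.cons (nat_lit 63576) <| List.cons (nat_lit 56489) <| List.cons (nat_lit 41185) <| List.nil) <|
  List.cons (nat_lit 189377, nat_lit 0, List.cons (nat_lit 21028) <| List.cons (nat_lit 50356) <| List.cons (nat_lit 31873) <| List.cons (nat_lit 60656) <| List.cons (nat_lit 16937) <| List.nil) <|
  List.cons (nat_lit 189878, nat_lit 0, List.cons (nat_lit 59355) <| List.cons (nat_lit 50955) <| List.cons (nat_lit 27916) <| List.cons (nat_lit 11018) <| List.cons (nat_lit 2105) <| List.cons (nat_lit 55809) <| List.nil) <|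
  List.cons (nat_lit 190379, nat_lit 0, List.cons (nat_lit 42243) <| List.cons (nat_lit 28947) <| List.cons (nat_lit 21268) <| List.cons (nat_lit 27123) <| List.cons (nat_lit 35154) <| List.cons (nat_lit 15049) <| List.cons (nat_lit 4611) <| List.nil) <|
  List.cons (nat_lit 190880, nat_lit 0, List.cons (nat_lit 40539) <| List.cons (nat_lit 59496) <| List.cons (nat_lit 18844) <| List.cons (nat_lit 31178) <| List.cons (nat_lit 40090) <| List.cons (nat_lit 49841) <| List.cons (nat_lit 73) <| List.nil) <|
  List.cons (nat_lit 191381, nat_lit 0, List.cons (nat_lit 48628) <| List.cons (nat_lit 2020) <| List.cons (nat_lit 21171) <| List.cons (nat_lit 59584) <| List.cons (nat_lit 34072) <| List.cons (nat_lit 2976) <| List.nil) <|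
  List.cons (nat_lit 191882, nat_lit 0, List.cons (nat_lit 52587) <| List.cons (nat_lit 15388) <| List.cons (nat_lit 29116) <| List.cons (nat_lit 55641) <| List.cons (nat_lit 22017) <| List.cons (nat_lit 600) <| List.nil) <|
  List.cons (nat_lit 192383, nat_lit 0, List.cons (nat_lit 51795) <| List.cons (nat_lit 36676) <| List.cons (nat_lit 40612) <| List.cons (nat_lit 12514) <| List.cons (nat_lit 61584) <| List.cons (nat_lit 27480) <| List.nil) <|
  List.cons (nat_lit 192884, nat_lit 0, List.cons (nat_lit 2668) <| List.cons (nat_lit 44716) <| List.cons (nat_lit 57435) <| List.cons (nat_lit 33513) <| List.cons (nat_lit 5841) <| List.nil) <|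
  List.cons (nat_lit 193385, nat_lit 0, List.cons (nat_lit 58516) <| List.cons (nat_lit 8068) <| List.cons (nat_lit 18292) <| List.cons (nat_lit 21137) <| List.cons (nat_lit 63689) <| List.nil) <|
  List.cons (nat_lit 193886, nat_lit 0, List.cons (nat_lit 43516) <| List.cons (nat_lit 2620) <| List.cons (nat_lit 25084) <| List.cons (nat_lit 59720) <| List.cons (nat_lit 55457) <| List.cons (nat_lit 49419) <| List.nil) <|
  List.cons (nat_lit 194387, nat_lit 0, List.cons (nat_lit 17074) <| List.cons (nat_lit 45844) <| List.cons (nat_lit 29092) <| List.cons (nat_lit 28659) <| List.cons (nat_lit 59321) <| List.nil) <|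
  List.cons (nat_lit 194888, nat_lit 0, List.cons (nat_lit 22107) <| List.cons (nat_lit 30460) <| List.cons (nat_lit 61516) <| List.cons (nat_lit 45993) <| List.cons (nat_lit 11121) <| List.nil) <|
  List.cons (nat_lit 195389, nat_lit 0, List.cons (nat_lit 53668) <| List.cons (nat_lit 23284) <| List.cons (nat_lit 53330) <| List.cons (nat_lit 39442) <| List.cons (nat_lit 24329) <| List.nil) <|
  List.cons (nat_lit 195890, nat_lit 0, List.cons (nat_lit 48363) <| List.cons (nat_lit 11067) <| List.cons (nat_lit 35308) <| List.cons (nat_lit 9387) <| List.cons (nat_lit 18874) <| List.cons (nat_lit 58768) <| List.nil) <|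
  List.cons (nat_lit 196391, nat_lit 0, List.cons (nat_lit 11427) <| List.cons (nat_lit 47812) <| List.cons (nat_lit 29092) <| List.cons (nat_lit 15056) <| List.cons (nat_lit 17112) <| List.cons (nat_lit 36290) <| List.nil) <|
  List.cons (nat_lit 196892, nat_lit 0, List.cons (nat_lit 4923) <| List.cons (nat_lit 1179) <| List.cons (nat_lit 50860) <| List.cons (nat_lit 30411) <| List.cons (nat_lit 35224) <| List.cons (nat_lit 19040) <| List.nil) <|
  List.cons (nat_lit 197393, nat_lit 0, List.cons (nat_lit 50788) <| List.cons (nat_lit 63652) <| List.cons (nat_lit 1300) <| List.cons (nat_lit 39329) <| List.cons (nat_lit 13929) <| List.nil) <|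
  List.cons (nat_lit 197894, nat_lit 0, List.cons (nat_lit 14235) <| List.cons (nat_lit 8714) <| List.cons (nat_lit 17788) <| List.cons (nat_lit 22537) <| List.cons (nat_lit 10569) <| List.cons (nat_lit 801) <| List.nil) <|
  List.cons (nat_lit 198395, nat_lit 0, List.cons (nat_lit 49491) <| List.cons (nat_lit 48531) <| List.cons (nat_lit 23092) <| List.cons (nat_lit 46721) <| List.cons (nat_lit 23042) <| List.cons (nat_lit 10104) <| List.nil) <|
  List.cons (nat_lit 198896, nat_lit 0, List.cons (nat_lit 12796) <| List.cons (nat_lit 38908) <| List.cons (nat_lit 43994) <| List.cons (nat_lit 45848) <| List.cons (nat_lit 25745) <| List.nil) <|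
  List.cons (nat_lit 199397, nat_lit 0, List.cons (nat_lit 23764) <| List.cons (nat_lit 26116) <| List.cons (nat_lit 31888) <| List.cons (nat_lit 12297) <| List.cons (nat_lit 33410) <| List.nil) <|
  List.cons (nat_lit 199898, nat_lit 0, List.cons (nat_lit 31851) <| List.cons (nat_lit 35500) <| List.cons (nat_lit 46251) <| List.cons (nat_lit 64040) <| List.cons (nat_lit 59873) <| List.nil) <|
  List.cons (nat_lit 200399, nat_lit 0, List.cons (nat_lit 42387) <| List.cons (nat_lit 4467) <| List.cons (nat_lit 46900) <| List.cons (nat_lit 26801) <| List.cons (nat_lit 33266) <| List.cons (nat_lit 32936) <| List.nil) <|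
  anc10

/-- anchors -/
def anc8 : List (ℕ × ℕ × List ℕ) :=
  List.cons (nat_lit 160820, nat_lit 0, List.cons (nat_lit 21210) <| List.cons (nat_lit 52780) <| List.cons (nat_lit 13996) <| List.cons (nat_lit 17544) <| List.cons (nat_lit 39888) <| List.nil) <|
  List.cons (nat_lit 161321, nat_lit 0, List.cons (nat_lit 5284) <| List.cons (nat_lit 44068) <| List.cons (nat_lit 11379) <| List.cons (nat_lit 9714) <| List.cons (nat_lit 36280) <| List.nil) <|
  List.cons (nat_lit 161822, nat_lit 0, List.cons (nat_lit 52107) <| List.cons (nat_lit 9147) <| List.cons (nat_lit 9052) <| List.cons (nat_lit 11368) <| List.cons (nat_lit 46272) <| List.cons (nat_lit 39435) <| List.nil) <|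
  List.cons (nat_lit 162323, nat_lit 0, List.cons (nat_lit 57843) <| List.cons (nat_lit 33459) <| List.cons (nat_lit 40900) <| List.cons (nat_lit 5811) <| List.cons (nat_lit 29264) <| List.cons (nat_lit 49576) <| List.nil) <|
  List.cons (nat_lit 162824, nat_lit 0, List.cons (nat_lit 33387) <| List.cons (nat_lit 43419) <| List.cons (nat_lit 8860) <| List.cons (nat_lit 39818) <| List.cons (nat_lit 40857) <| List.cons (nat_lit 38160) <| List.nil) <|
  List.cons (nat_lit 163325, nat_lit 0, List.cons (nat_lit 4852) <| List.cons (nat_lit 10660) <| List.cons (nat_lit 23332) <| List.cons (nat_lit 36738) <| List.cons (nat_lit 42633) <| List.nil) <|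
  List.cons (nat_lit 163826, nat_lit 0, List.cons (nat_lit 34011) <| List.cons (nat_lit 56524) <| List.cons (nat_lit 28732) <| List.cons (nat_lit 7803) <| List.cons (nat_lit 57400) <| List.cons (nat_lit 26081) <| List.nil) <|
  List.cons (nat_lit 164327, nat_lit 0, List.cons (nat_lit 40227) <| List.cons (nat_lit 5236) <| List.cons (nat_lit 20164) <| List.cons (nat_lit 32050) <| List.cons (nat_lit 16889) <| List.cons (nat_lit 45841) <| List.nil) <|
  List.cons (nat_lit 164828, nat_lit 0, List.cons (nat_lit 62812) <| List.cons (nat_lit 5164) <| List.cons (nat_lit 38760) <| List.cons (nat_lit 57114) <| List.cons (nat_lit 16625) <| List.cons (nat_lit 25) <| List.nil) <|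
  List.cons (nat_lit 165329, nat_lit 0, List.cons (nat_lit 18387) <| List.cons (nat_lit 34371) <| List.cons (nat_lit 39796) <| List.cons (nat_lit 58082) <| List.cons (nat_lit 45058) <| List.cons (nat_lit 5977) <| List.cons (nat_lit 61826) <| List.nil) <|
  List.cons (nat_lit 165830, nat_lit 0, List.cons (nat_lit 60316) <| List.cons (nat_lit 37228) <| List.cons (nat_lit 61753) <| List.cons (nat_lit 20920) <| List.cons (nat_lit 13328) <| List.nil) <|
  List.cons (nat_lit 166331, nat_lit 0, List.cons (nat_lit 8692) <| List.cons (nat_lit 48148) <| List.cons (nat_lit 41187) <| List.cons (nat_lit 882) <| List.cons (nat_lit 63169) <| List.cons (nat_lit 51000) <| List.nil) <|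
  List.cons (nat_lit 166832, nat_lit 0, List.cons (nat_lit 54843) <| List.cons (nat_lit 60987) <| List.cons (nat_lit 33724) <| List.cons (nat_lit 49513) <| List.cons (nat_lit 58378) <| List.cons (nat_lit 63281) <| List.nil) <|
  List.cons (nat_lit 167333, nat_lit 0, List.cons (nat_lit 43107) <| List.cons (nat_lit 63124) <| List.cons (nat_lit 58851) <| List.cons (nat_lit 18976) <| List.cons (nat_lit 46371) <| List.cons (nat_lit 21880) <| List.nil) <|
  List.cons (nat_lit 167834, nat_lit 0, List.cons (nat_lit 9243) <| List.cons (nat_lit 28200) <| List.cons (nat_lit 3868) <| List.cons (nat_lit 60747) <| List.cons (nat_lit 19736) <| List.cons (nat_lit 42512) <| List.nil) <|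
  List.cons (nat_lit 168335, nat_lit 0, List.cons (nat_lit 8548) <| List.cons (nat_lit 27076) <| List.cons (nat_lit 60436) <| List.cons (nat_lit 35168) <| List.cons (nat_lit 15065) <| List.nil) <|
  List.cons (nat_lit 168836, nat_lit 0, List.cons (nat_lit 13324) <| List.cons (nat_lit 3772) <| List.cons (nat_lit 34780) <| List.cons (nat_lit 26120) <| List.cons (nat_lit 3504) <| List.nil) <|
  List.cons (nat_lit 169337, nat_lit 0, List.cons (nat_lit 41908) <| List.cons (nat_lit 10372) <| List.cons (nat_lit 14643) <| List.cons (nat_lit 23104) <| List.cons (nat_lit 6520) <| List.nil) <|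
  List.cons (nat_lit 169838, nat_lit 0, List.cons (nat_lit 21210) <| List.cons (nat_lit 41164) <| List.cons (nat_lit 29644) <| List.cons (nat_lit 47644) <| List.cons (nat_lit 29617) <| List.nil) <|
  List.cons (nat_lit 170339, nat_lit 0, List.cons (nat_lit 1924) <| List.cons (nat_lit 32452) <| List.cons (nat_lit 63603) <| List.cons (nat_lit 26706) <| List.cons (nat_lit 6217) <| List.nil) <|
  List.cons (nat_lit 170840, nat_lit 0, List.cons (nat_lit 6554) <| List.cons (nat_lit 11355) <| List.cons (nat_lit 16780) <| List.cons (nat_lit 35307) <| List.cons (nat_lit 45561) <| List.cons (nat_lit 44049) <| List.nil) <|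
  List.cons (nat_lit 171341, nat_lit 0, List.cons (nat_lit 5571) <| List.cons (nat_lit 13923) <| List.cons (nat_lit 31684) <| List.cons (nat_lit 44882) <| List.cons (nat_lit 1904) <| List.cons (nat_lit 6649) <| List.nil) <|
  List.cons (nat_lit 171842, nat_lit 0, List.cons (nat_lit 43563) <| List.cons (nat_lit 45866) <| List.cons (nat_lit 45004) <| List.cons (nat_lit 22681) <| List.cons (nat_lit 36809) <| List.cons (nat_lit 3760) <| List.nil) <|
  List.cons (nat_lit 172343, nat_lit 0, List.cons (nat_lit 63507) <| List.cons (nat_lit 43395) <| List.cons (nat_lit 21124) <| List.cons (nat_lit 45456) <| List.cons (nat_lit 13410) <| List.cons (nat_lit 53992) <| List.nil) <|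
  List.cons (nat_lit 172844, nat_lit 0, List.cons (nat_lit 35547) <| List.cons (nat_lit 37371) <| List.cons (nat_lit 24796) <| List.cons (nat_lit 30537) <| List.cons (nat_lit 27576) <| List.cons (nat_lit 17649) <| List.nil) <|
  List.cons (nat_lit 173345, nat_lit 0, List.cons (nat_lit 28594) <| List.cons (nat_lit 16659) <| List.cons (nat_lit 15028) <| List.cons (nat_lit 62356) <| List.cons (nat_lit 34657) <| List.cons (nat_lit 34232) <| List.nil) <|
  List.cons (nat_lit 173846, nat_lit 0, List.cons (nat_lit 58059) <| List.cons (nat_lit 20139) <| List.cons (nat_lit 43468) <| List.cons (nat_lit 17115) <| List.cons (nat_lit 21176) <| List.cons (nat_lit 52065) <| List.nil) <|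
  List.cons (nat_lit 174347, nat_lit 0, List.cons (nat_lit 17476) <| List.cons (nat_lit 43108) <| List.cons (nat_lit 38067) <| List.cons (nat_lit 51424) <| List.cons (nat_lit 46617) <| List.nil) <|
  List.cons (nat_lit 174848, nat_lit 0, List.cons (nat_lit 40635) <| List.cons (nat_lit 51675) <| List.cons (nat_lit 35452) <| List.cons (nat_lit 20956) <| List.cons (nat_lit 5849) <| List.cons (nat_lit 33344) <| List.nil) <|
  List.cons (nat_lit 175349, nat_lit 0, List.cons (nat_lit 37827) <| List.cons (nat_lit 30820) <| List.cons (nat_lit 8260) <| List.cons (nat_lit 23104) <| List.cons (nat_lit 40659) <| List.cons (nat_lit 38584) <| List.nil) <|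
  List.cons (nat_lit 175850, nat_lit 0, List.cons (nat_lit 27562) <| List.cons (nat_lit 13659) <| List.cons (nat_lit 8138) <| List.cons (nat_lit 32908) <| List.cons (nat_lit 29978) <| List.cons (nat_lit 3936) <| List.nil) <|
  List.cons (nat_lit 176351, nat_lit 0, List.cons (nat_lit 21220) <| List.cons (nat_lit 388) <| List.cons (nat_lit 50547) <| List.cons (nat_lit 14034) <| List.cons (nat_lit 50904) <| List.nil) <|
  List.cons (nat_lit 176852, nat_lit 0, List.cons (nat_lit 19420) <| List.cons (nat_lit 3340) <| List.cons (nat_lit 8425) <| List.cons (nat_lit 3736) <| List.cons (nat_lit 18529) <| List.nil) <|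
  List.cons (nat_lit 177353, nat_lit 0, List.cons (nat_lit 9891) <| List.cons (nat_lit 48147) <| List.cons (nat_lit 31492) <| List.cons (nat_lit 19488) <| List.cons (nat_lit 55888) <| List.cons (nat_lit 30665) <| List.nil) <|
  List.cons (nat_lit 177854, nat_lit 0, List.cons (nat_lit 45066) <| List.cons (nat_lit 49081) <| List.cons (nat_lit 42507) <| List.cons (nat_lit 31660) <| List.cons (nat_lit 6699) <| List.cons (nat_lit 37201) <| List.nil) <|
  List.cons (nat_lit 178355, nat_lit 0, List.cons (nat_lit 56644) <| List.cons (nat_lit 1300) <| List.cons (nat_lit 12194) <| List.cons (nat_lit 5362) <| List.cons (nat_lit 52681) <| List.nil) <|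
  List.cons (nat_lit 178856, nat_lit 0, List.cons (nat_lit 13709) <| List.cons (nat_lit 64793) <| List.cons (nat_lit 193) <| List.cons (nat_lit 3772) <| List.nil) <|
  List.cons (nat_lit 179357, nat_lit 0, List.cons (nat_lit 35619) <| List.cons (nat_lit 9701) <| List.cons (nat_lit 26578) <| List.cons (nat_lit 2184) <| List.nil) <|
  List.cons (nat_lit 179858, nat_lit 0, List.cons (nat_lit 10107) <| List.cons (nat_lit 5931) <| List.cons (nat_lit 5693) <| List.cons (nat_lit 27882) <| List.cons (nat_lit 13808) <| List.nil) <|
  List.cons (nat_lit 180359, nat_lit 0, List.cons (nat_lit 17283) <| List.cons (nat_lit 11331) <| List.cons (nat_lit 37444) <| List.cons (nat_lit 31778) <| List.cons (nat_lit 36834) <| List.cons (nat_lit 32025) <| List.nil) <|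
  anc9

/-- anchors -/
def anc7 : List (ℕ × ℕ × List ℕ) :=
  List.cons (nat_lit 140780, nat_lit 0, List.cons (nat_lit 35691) <| List.cons (nat_lit 30988) <| List.cons (nat_lit 37944) <| List.cons (nat_lit 46376) <| List.cons (nat_lit 16176) <| List.cons (nat_lit 55176) <| List.nil) <|
  List.cons (nat_lit 141281, nat_lit 0, List.cons (nat_lit 45507) <| List.cons (nat_lit 46611) <| List.cons (nat_lit 32068) <| List.cons (nat_lit 18866) <| List.cons (nat_lit 40594) <| List.cons (nat_lit 59465) <| List.nil) <|
  List.cons (nat_lit 141782, nat_lit 0, List.cons (nat_lit 61226) <| List.cons (nat_lit 25564) <| List.cons (nat_lit 55036) <| List.cons (nat_lit 8938) <| List.cons (nat_lit 45104) <| List.nil) <|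
  List.cons (nat_lit 142283, nat_lit 0, List.cons (nat_lit 41284) <| List.cons (nat_lit 35380) <| List.cons (nat_lit 2883) <| List.cons (nat_lit 27970) <| List.cons (nat_lit 8200) <| List.nil) <|
  List.cons (nat_lit 142784, nat_lit 0, List.cons (nat_lit 54700) <| List.cons (nat_lit 37612) <| List.cons (nat_lit 24220) <| List.cons (nat_lit 51754) <| List.cons (nat_lit 9025) <| List.nil) <|
  List.cons (nat_lit 143285, nat_lit 0, List.cons (nat_lit 33171) <| List.cons (nat_lit 35475) <| List.cons (nat_lit 19348) <| List.cons (nat_lit 45360) <| List.cons (nat_lit 4193) <| List.cons (nat_lit 37481) <| List.nil) <|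
  List.cons (nat_lit 143786, nat_lit 0, List.cons (nat_lit 54507) <| List.cons (nat_lit 30027) <| List.cons (nat_lit 34972) <| List.cons (nat_lit 8857) <| List.cons (nat_lit 58937) <| List.cons (nat_lit 48721) <| List.nil) <|
  List.cons (nat_lit 144287, nat_lit 0, List.cons (nat_lit 39652) <| List.cons (nat_lit 5956) <| List.cons (nat_lit 28467) <| List.cons (nat_lit 60754) <| List.cons (nat_lit 36024) <| List.nil) <|
  List.cons (nat_lit 144788, nat_lit 0, List.cons (nat_lit 45244) <| List.cons (nat_lit 48220) <| List.cons (nat_lit 18362) <| List.cons (nat_lit 48136) <| List.cons (nat_lit 20161) <| List.nil) <|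
  List.cons (nat_lit 145289, nat_lit 0, List.cons (nat_lit 49348) <| List.cons (nat_lit 22948) <| List.cons (nat_lit 33075) <| List.cons (nat_lit 29633) <| List.cons (nat_lit 14072) <| List.nil) <|
  List.cons (nat_lit 145790, nat_lit 0, List.cons (nat_lit 38715) <| List.cons (nat_lit 24460) <| List.cons (nat_lit 30652) <| List.cons (nat_lit 3161) <| List.cons (nat_lit 27720) <| List.cons (nat_lit 36976) <| List.nil) <|
  List.cons (nat_lit 146291, nat_lit 0, List.cons (nat_lit 42291) <| List.cons (nat_lit 51939) <| List.cons (nat_lit 49156) <| List.cons (nat_lit 26112) <| List.cons (nat_lit 61312) <| List.cons (nat_lit 2632) <| List.cons (nat_lit 62643) <| List.nil) <|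
  List.cons (nat_lit 146792, nat_lit 0, List.cons (nat_lit 45963) <| List.cons (nat_lit 12843) <| List.cons (nat_lit 46732) <| List.cons (nat_lit 9916) <| List.cons (nat_lit 35560) <| List.cons (nat_lit 35488) <| List.nil) <|
  List.cons (nat_lit 147293, nat_lit 0, List.cons (nat_lit 12226) <| List.cons (nat_lit 25779) <| List.cons (nat_lit 15460) <| List.cons (nat_lit 31732) <| List.cons (nat_lit 29417) <| List.nil) <|
  List.cons (nat_lit 147794, nat_lit 0, List.cons (nat_lit 35403) <| List.cons (nat_lit 61275) <| List.cons (nat_lit 2908) <| List.cons (nat_lit 1180) <| List.cons (nat_lit 41528) <| List.cons (nat_lit 9872) <| List.nil) <|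
  List.cons (nat_lit 148295, nat_lit 0, List.cons (nat_lit 13539) <| List.cons (nat_lit 55588) <| List.cons (nat_lit 48436) <| List.cons (nat_lit 12016) <| List.cons (nat_lit 47289) <| List.nil) <|
  List.cons (nat_lit 148796, nat_lit 0, List.cons (nat_lit 59932) <| List.cons (nat_lit 45052) <| List.cons (nat_lit 3436) <| List.cons (nat_lit 54536) <| List.cons (nat_lit 1664) <| List.nil) <|
  List.cons (nat_lit 149297, nat_lit 0, List.cons (nat_lit 39987) <| List.cons (nat_lit 9747) <| List.cons (nat_lit 59044) <| List.cons (nat_lit 4610) <| List.cons (nat_lit 15762) <| List.cons (nat_lit 53017) <| List.nil) <|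
  List.cons (nat_lit 149798, nat_lit 0, List.cons (nat_lit 13515) <| List.cons (nat_lit 28395) <| List.cons (nat_lit 23451) <| List.cons (nat_lit 1995) <| List.cons (nat_lit 32392) <| List.cons (nat_lit 61121) <| List.nil) <|
  List.cons (nat_lit 150299, nat_lit 0, List.cons (nat_lit 10899) <| List.cons (nat_lit 21075) <| List.cons (nat_lit 32260) <| List.cons (nat_lit 97) <| List.cons (nat_lit 19649) <| List.cons (nat_lit 30393) <| List.nil) <|
  List.cons (nat_lit 150800, nat_lit 0, List.cons (nat_lit 714) <| List.cons (nat_lit 37612) <| List.cons (nat_lit 15724) <| List.cons (nat_lit 20235) <| List.cons (nat_lit 43409) <| List.cons (nat_lit 124) <| List.nil) <|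
  List.cons (nat_lit 151301, nat_lit 0, List.cons (nat_lit 40948) <| List.cons (nat_lit 22804) <| List.cons (nat_lit 62304) <| List.cons (nat_lit 21968) <| List.cons (nat_lit 57272) <| List.nil) <|
  List.cons (nat_lit 151802, nat_lit 0, List.cons (nat_lit 48363) <| List.cons (nat_lit 53308) <| List.cons (nat_lit 60028) <| List.cons (nat_lit 17577) <| List.cons (nat_lit 62753) <| List.nil) <|
  List.cons (nat_lit 152303, nat_lit 0, List.cons (nat_lit 2500) <| List.cons (nat_lit 57652) <| List.cons (nat_lit 54484) <| List.cons (nat_lit 61858) <| List.cons (nat_lit 31177) <| List.nil) <|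
  List.cons (nat_lit 152804, nat_lit 0, List.cons (nat_lit 29499) <| List.cons (nat_lit 37754) <| List.cons (nat_lit 58300) <| List.cons (nat_lit 45530) <| List.cons (nat_lit 17720) <| List.cons (nat_lit 18096) <| List.nil) <|
  List.cons (nat_lit 153305, nat_lit 0, List.cons (nat_lit 15508) <| List.cons (nat_lit 64660) <| List.cons (nat_lit 63266) <| List.cons (nat_lit 29218) <| List.cons (nat_lit 39448) <| List.nil) <|
  List.cons (nat_lit 153806, nat_lit 0, List.cons (nat_lit 38234) <| List.cons (nat_lit 54219) <| List.cons (nat_lit 27964) <| List.cons (nat_lit 50811) <| List.cons (nat_lit 23610) <| List.cons (nat_lit 16865) <| List.nil) <|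
  List.cons (nat_lit 154307, nat_lit 0, List.cons (nat_lit 1107) <| List.cons (nat_lit 8835) <| List.cons (nat_lit 56644) <| List.cons (nat_lit 55872) <| List.cons (nat_lit 35746) <| List.cons (nat_lit 55128) <| List.nil) <|
  List.cons (nat_lit 154808, nat_lit 0, List.cons (nat_lit 44860) <| List.cons (nat_lit 41595) <| List.cons (nat_lit 11836) <| List.cons (nat_lit 10233) <| List.cons (nat_lit 43697) <| List.nil) <|
  List.cons (nat_lit 155309, nat_lit 0, List.cons (nat_lit 11427) <| List.cons (nat_lit 49875) <| List.cons (nat_lit 62692) <| List.cons (nat_lit 24196) <| List.cons (nat_lit 19761) <| List.cons (nat_lit 32328) <| List.nil) <|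
  List.cons (nat_lit 155810, nat_lit 0, List.cons (nat_lit 30891) <| List.cons (nat_lit 13706) <| List.cons (nat_lit 58540) <| List.cons (nat_lit 3864) <| List.cons (nat_lit 8360) <| List.cons (nat_lit 25697) <| List.nil) <|
  List.cons (nat_lit 156311, nat_lit 0, List.cons (nat_lit 4180) <| List.cons (nat_lit 4900) <| List.cons (nat_lit 30771) <| List.cons (nat_lit 50848) <| List.cons (nat_lit 39801) <| List.nil) <|
  List.cons (nat_lit 156812, nat_lit 0, List.cons (nat_lit 55178) <| List.cons (nat_lit 62042) <| List.cons (nat_lit 56956) <| List.cons (nat_lit 6058) <| List.cons (nat_lit 3336) <| List.cons (nat_lit 61233) <| List.nil) <|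
  List.cons (nat_lit 157313, nat_lit 0, List.cons (nat_lit 7731) <| List.cons (nat_lit 54772) <| List.cons (nat_lit 49152) <| List.cons (nat_lit 41908) <| List.cons (nat_lit 20273) <| List.cons (nat_lit 7160) <| List.nil) <|
  List.cons (nat_lit 157814, nat_lit 0, List.cons (nat_lit 24748) <| List.cons (nat_lit 42652) <| List.cons (nat_lit 2715) <| List.cons (nat_lit 42473) <| List.cons (nat_lit 17521) <| List.nil) <|
  List.cons (nat_lit 158315, nat_lit 0, List.cons (nat_lit 63795) <| List.cons (nat_lit 55875) <| List.cons (nat_lit 32452) <| List.cons (nat_lit 40705) <| List.cons (nat_lit 51376) <| List.cons (nat_lit 12537) <| List.nil) <|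
  List.cons (nat_lit 158816, nat_lit 0, List.cons (nat_lit 60858) <| List.cons (nat_lit 48555) <| List.cons (nat_lit 56043) <| List.cons (nat_lit 15292) <| List.cons (nat_lit 37660) <| List.cons (nat_lit 41857) <| List.nil) <|
  List.cons (nat_lit 159317, nat_lit 0, List.cons (nat_lit 62979) <| List.cons (nat_lit 60819) <| List.cons (nat_lit 17236) <| List.cons (nat_lit 61635) <| List.cons (nat_lit 36834) <| List.cons (nat_lit 59049) <| List.nil) <|
  List.cons (nat_lit 159818, nat_lit 0, List.cons (nat_lit 34876) <| List.cons (nat_lit 47452) <| List.cons (nat_lit 26476) <| List.cons (nat_lit 9642) <| List.cons (nat_lit 52945) <| List.nil) <|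
  List.cons (nat_lit 160319, nat_lit 0, List.cons (nat_lit 33172) <| List.cons (nat_lit 43444) <| List.cons (nat_lit 7057) <| List.cons (nat_lit 33138) <| List.cons (nat_lit 59801) <| List.nil) <|
  anc8

/-- anchors -/
def anc6 : List (ℕ × ℕ × List ℕ) :=
  List.cons (nat_lit 120740, nat_lit 0, List.cons (nat_lit 20764) <| List.cons (nat_lit 59020) <| List.cons (nat_lit 19561) <| List.cons (nat_lit 31546) <| List.cons (nat_lit 51424) <| List.nil) <|
  List.cons (nat_lit 121241, nat_lit 0, List.cons (nat_lit 24483) <| List.cons (nat_lit 55780) <| List.cons (nat_lit 51073) <| List.cons (nat_lit 17730) <| List.cons (nat_lit 20404) <| List.cons (nat_lit 58697) <| List.nil) <|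
  List.cons (nat_lit 121742, nat_lit 0, List.cons (nat_lit 26698) <| List.cons (nat_lit 50859) <| List.cons (nat_lit 1564) <| List.cons (nat_lit 36028) <| List.cons (nat_lit 37105) <| List.nil) <|
  List.cons (nat_lit 122243, nat_lit 0, List.cons (nat_lit 27316) <| List.cons (nat_lit 60916) <| List.cons (nat_lit 34755) <| List.cons (nat_lit 54354) <| List.cons (nat_lit 57001) <| List.cons (nat_lit 3217) <| List.nil) <|
  List.cons (nat_lit 122744, nat_lit 0, List.cons (nat_lit 8236) <| List.cons (nat_lit 56908) <| List.cons (nat_lit 57770) <| List.cons (nat_lit 38826) <| List.cons (nat_lit 48832) <| List.nil) <|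
  List.cons (nat_lit 123245, nat_lit 0, List.cons (nat_lit 55875) <| List.cons (nat_lit 11426) <| List.cons (nat_lit 7924) <| List.cons (nat_lit 2115) <| List.cons (nat_lit 28096) <| List.cons (nat_lit 61177) <| List.cons (nat_lit 12816) <| List.nil) <|
  List.cons (nat_lit 123746, nat_lit 0, List.cons (nat_lit 21531) <| List.cons (nat_lit 4300) <| List.cons (nat_lit 45291) <| List.cons (nat_lit 312) <| List.cons (nat_lit 38648) <| List.cons (nat_lit 2304) <| List.nil) <|
  List.cons (nat_lit 124247, nat_lit 0, List.cons (nat_lit 43636) <| List.cons (nat_lit 292) <| List.cons (nat_lit 62786) <| List.cons (nat_lit 13040) <| List.cons (nat_lit 22280) <| List.nil) <|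
  List.cons (nat_lit 124748, nat_lit 0, List.cons (nat_lit 57147) <| List.cons (nat_lit 59353) <| List.cons (nat_lit 2572) <| List.cons (nat_lit 45193) <| List.cons (nat_lit 27513) <| List.cons (nat_lit 50832) <| List.nil) <|
  List.cons (nat_lit 125249, nat_lit 0, List.cons (nat_lit 5106) <| List.cons (nat_lit 9507) <| List.cons (nat_lit 61011) <| List.cons (nat_lit 22948) <| List.cons (nat_lit 26691) <| List.cons (nat_lit 16729) <| List.cons (nat_lit 56691) <| List.nil) <|
  List.cons (nat_lit 125750, nat_lit 0, List.cons (nat_lit 63627) <| List.cons (nat_lit 14187) <| List.cons (nat_lit 23788) <| List.cons (nat_lit 10155) <| List.cons (nat_lit 24233) <| List.cons (nat_lit 29345) <| List.cons (nat_lit 55561) <| List.nil) <|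
  List.cons (nat_lit 126251, nat_lit 0, List.cons (nat_lit 8836) <| List.cons (nat_lit 13971) <| List.cons (nat_lit 59955) <| List.cons (nat_lit 28930) <| List.cons (nat_lit 56921) <| List.cons (nat_lit 50596) <| List.nil) <|
  List.cons (nat_lit 126752, nat_lit 0, List.cons (nat_lit 44634) <| List.cons (nat_lit 26570) <| List.cons (nat_lit 45147) <| List.cons (nat_lit 36844) <| List.cons (nat_lit 44812) <| List.cons (nat_lit 30065) <| List.nil) <|
  List.cons (nat_lit 127253, nat_lit 0, List.cons (nat_lit 42580) <| List.cons (nat_lit 54868) <| List.cons (nat_lit 10180) <| List.cons (nat_lit 43810) <| List.cons (nat_lit 4664) <| List.nil) <|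
  List.cons (nat_lit 127754, nat_lit 0, List.cons (nat_lit 55515) <| List.cons (nat_lit 53499) <| List.cons (nat_lit 18123) <| List.cons (nat_lit 33196) <| List.cons (nat_lit 36153) <| List.cons (nat_lit 53360) <| List.nil) <|
  List.cons (nat_lit 128255, nat_lit 0, List.cons (nat_lit 867) <| List.cons (nat_lit 16420) <| List.cons (nat_lit 18196) <| List.cons (nat_lit 29908) <| List.cons (nat_lit 45858) <| List.cons (nat_lit 19753) <| List.nil) <|
  List.cons (nat_lit 128756, nat_lit 0, List.cons (nat_lit 64779) <| List.cons (nat_lit 17499) <| List.cons (nat_lit 60028) <| List.cons (nat_lit 54121) <| List.cons (nat_lit 57690) <| List.cons (nat_lit 27392) <| List.nil) <|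
  List.cons (nat_lit 129257, nat_lit 0, List.cons (nat_lit 34803) <| List.cons (nat_lit 59764) <| List.cons (nat_lit 58899) <| List.cons (nat_lit 5409) <| List.cons (nat_lit 60952) <| List.cons (nat_lit 54384) <| List.nil) <|
  List.cons (nat_lit 129758, nat_lit 0, List.cons (nat_lit 43468) <| List.cons (nat_lit 52156) <| List.cons (nat_lit 46875) <| List.cons (nat_lit 58137) <| List.cons (nat_lit 12833) <| List.nil) <|
  List.cons (nat_lit 130259, nat_lit 0, List.cons (nat_lit 10546) <| List.cons (nat_lit 64611) <| List.cons (nat_lit 56068) <| List.cons (nat_lit 25156) <| List.cons (nat_lit 15337) <| List.cons (nat_lit 24433) <| List.nil) <|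
  List.cons (nat_lit 130760, nat_lit 0, List.cons (nat_lit 24268) <| List.cons (nat_lit 25564) <| List.cons (nat_lit 58650) <| List.cons (nat_lit 42464) <| List.nil) <|
  List.cons (nat_lit 131261, nat_lit 0, List.cons (nat_lit 10083) <| List.cons (nat_lit 2595) <| List.cons (nat_lit 21556) <| List.cons (nat_lit 47523) <| List.cons (nat_lit 34577) <| List.cons (nat_lit 20777) <| List.nil) <|
  List.cons (nat_lit 131762, nat_lit 0, List.cons (nat_lit 40203) <| List.cons (nat_lit 36794) <| List.cons (nat_lit 36363) <| List.cons (nat_lit 16874) <| List.cons (nat_lit 57418) <| List.cons (nat_lit 26112) <| List.nil) <|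
  List.cons (nat_lit 132263, nat_lit 0, List.cons (nat_lit 33234) <| List.cons (nat_lit 1875) <| List.cons (nat_lit 25971) <| List.cons (nat_lit 49395) <| List.cons (nat_lit 3892) <| List.cons (nat_lit 37721) <| List.nil) <|
  List.cons (nat_lit 132764, nat_lit 0, List.cons (nat_lit 21387) <| List.cons (nat_lit 9532) <| List.cons (nat_lit 14716) <| List.cons (nat_lit 62745) <| List.cons (nat_lit 10416) <| List.cons (nat_lit 6410) <| List.nil) <|
  List.cons (nat_lit 133265, nat_lit 0, List.cons (nat_lit 6723) <| List.cons (nat_lit 46419) <| List.cons (nat_lit 61876) <| List.cons (nat_lit 29763) <| List.cons (nat_lit 44128) <| List.cons (nat_lit 46440) <| List.nil) <|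
  List.cons (nat_lit 133766, nat_lit 0, List.cons (nat_lit 42603) <| List.cons (nat_lit 23692) <| List.cons (nat_lit 54316) <| List.cons (nat_lit 24872) <| List.cons (nat_lit 63770) <| List.cons (nat_lit 2800) <| List.nil) <|
  List.cons (nat_lit 134267, nat_lit 0, List.cons (nat_lit 47811) <| List.cons (nat_lit 36771) <| List.cons (nat_lit 44020) <| List.cons (nat_lit 30580) <| List.cons (nat_lit 64594) <| List.cons (nat_lit 7016) <| List.nil) <|
  List.cons (nat_lit 134768, nat_lit 0, List.cons (nat_lit 26907) <| List.cons (nat_lit 39529) <| List.cons (nat_lit 23980) <| List.cons (nat_lit 36748) <| List.cons (nat_lit 33033) <| List.cons (nat_lit 29777) <| List.nil) <|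
  List.cons (nat_lit 135269, nat_lit 0, List.cons (nat_lit 34083) <| List.cons (nat_lit 33744) <| List.cons (nat_lit 32885) <| List.cons (nat_lit 41314) <| List.cons (nat_lit 18825) <| List.nil) <|
  List.cons (nat_lit 135770, nat_lit 0, List.cons (nat_lit 2955) <| List.cons (nat_lit 13851) <| List.cons (nat_lit 11980) <| List.cons (nat_lit 5577) <| List.cons (nat_lit 23841) <| List.cons (nat_lit 9290) <| List.nil) <|
  List.cons (nat_lit 136271, nat_lit 0, List.cons (nat_lit 35811) <| List.cons (nat_lit 59667) <| List.cons (nat_lit 34132) <| List.cons (nat_lit 44977) <| List.cons (nat_lit 31138) <| List.cons (nat_lit 44601) <| List.nil) <|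
  List.cons (nat_lit 136772, nat_lit 0, List.cons (nat_lit 22251) <| List.cons (nat_lit 38379) <| List.cons (nat_lit 63052) <| List.cons (nat_lit 53784) <| List.cons (nat_lit 42489) <| List.cons (nat_lit 43344) <| List.nil) <|
  List.cons (nat_lit 137273, nat_lit 0, List.cons (nat_lit 43203) <| List.cons (nat_lit 436) <| List.cons (nat_lit 43250) <| List.cons (nat_lit 7842) <| List.cons (nat_lit 47400) <| List.cons (nat_lit 58179) <| List.nil) <|
  List.cons (nat_lit 137774, nat_lit 0, List.cons (nat_lit 49898) <| List.cons (nat_lit 26715) <| List.cons (nat_lit 32716) <| List.cons (nat_lit 57579) <| List.cons (nat_lit 42570) <| List.cons (nat_lit 63248) <| List.nil) <|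
  List.cons (nat_lit 138275, nat_lit 0, List.cons (nat_lit 42722) <| List.cons (nat_lit 2499) <| List.cons (nat_lit 6099) <| List.cons (nat_lit 46323) <| List.cons (nat_lit 58450) <| List.cons (nat_lit 4393) <| List.nil) <|
  List.cons (nat_lit 138776, nat_lit 0, List.cons (nat_lit 32668) <| List.cons (nat_lit 64204) <| List.cons (nat_lit 22347) <| List.cons (nat_lit 23384) <| List.cons (nat_lit 59456) <| List.nil) <|
  List.cons (nat_lit 139277, nat_lit 0, List.cons (nat_lit 4083) <| List.cons (nat_lit 50787) <| List.cons (nat_lit 28660) <| List.cons (nat_lit 47473) <| List.cons (nat_lit 22066) <| List.cons (nat_lit 51160) <| List.nil) <|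
  List.cons (nat_lit 139778, nat_lit 0, List.cons (nat_lit 411) <| List.cons (nat_lit 51675) <| List.cons (nat_lit 45532) <| List.cons (nat_lit 48602) <| List.cons (nat_lit 62777) <| List.cons (nat_lit 36000) <| List.nil) <|
  List.cons (nat_lit 140279, nat_lit 0, List.cons (nat_lit 28564) <| List.cons (nat_lit 52612) <| List.cons (nat_lit 33651) <| List.cons (nat_lit 11458) <| List.cons (nat_lit 49321) <| List.nil) <|
  anc7

/-- anchors -/
def anc5 : List (ℕ × ℕ × List ℕ) :=
  List.cons (nat_lit 100700, nat_lit 0, List.cons (nat_lit 22492) <| List.cons (nat_lit 47932) <| List.cons (nat_lit 31372) <| List.cons (nat_lit 40313) <| List.cons (nat_lit 8000) <| List.nil) <|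
  List.cons (nat_lit 101201, nat_lit 0, List.cons (nat_lit 37731) <| List.cons (nat_lit 15171) <| List.cons (nat_lit 9986) <| List.cons (nat_lit 56452) <| List.cons (nat_lit 17264) <| List.cons (nat_lit 34520) <| List.nil) <|
  List.cons (nat_lit 101702, nat_lit 0, List.cons (nat_lit 52779) <| List.cons (nat_lit 20331) <| List.cons (nat_lit 42124) <| List.cons (nat_lit 50668) <| List.cons (nat_lit 2633) <| List.cons (nat_lit 44432) <| List.nil) <|
  List.cons (nat_lit 102203, nat_lit 0, List.cons (nat_lit 63075) <| List.cons (nat_lit 1683) <| List.cons (nat_lit 46804) <| List.cons (nat_lit 63984) <| List.cons (nat_lit 50769) <| List.cons (nat_lit 35769) <| List.nil) <|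
  List.cons (nat_lit 102704, nat_lit 0, List.cons (nat_lit 5067) <| List.cons (nat_lit 32619) <| List.cons (nat_lit 31900) <| List.cons (nat_lit 61802) <| List.cons (nat_lit 56602) <| List.cons (nat_lit 561) <| List.nil) <|
  List.cons (nat_lit 103205, nat_lit 0, List.cons (nat_lit 26067) <| List.cons (nat_lit 29762) <| List.cons (nat_lit 51364) <| List.cons (nat_lit 57556) <| List.cons (nat_lit 40930) <| List.cons (nat_lit 27593) <| List.nil) <|
  List.cons (nat_lit 103706, nat_lit 0, List.cons (nat_lit 50524) <| List.cons (nat_lit 14476) <| List.cons (nat_lit 39387) <| List.cons (nat_lit 27209) <| List.cons (nat_lit 9153) <| List.nil) <|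
  List.cons (nat_lit 104207, nat_lit 0, List.cons (nat_lit 7779) <| List.cons (nat_lit 46900) <| List.cons (nat_lit 580) <| List.cons (nat_lit 21954) <| List.cons (nat_lit 32568) <| List.cons (nat_lit 7345) <| List.nil) <|
  List.cons (nat_lit 104708, nat_lit 0, List.cons (nat_lit 30795) <| List.cons (nat_lit 44332) <| List.cons (nat_lit 63963) <| List.cons (nat_lit 1177) <| List.cons (nat_lit 50922) <| List.cons (nat_lit 43393) <| List.nil) <|
  List.cons (nat_lit 105209, nat_lit 0, List.cons (nat_lit 54819) <| List.cons (nat_lit 14068) <| List.cons (nat_lit 32164) <| List.cons (nat_lit 38480) <| List.cons (nat_lit 44824) <| List.cons (nat_lit 34994) <| List.nil) <|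
  List.cons (nat_lit 105710, nat_lit 0, List.cons (nat_lit 36316) <| List.cons (nat_lit 6412) <| List.cons (nat_lit 48267) <| List.cons (nat_lit 23034) <| List.cons (nat_lit 13072) <| List.nil) <|
  List.cons (nat_lit 106211, nat_lit 0, List.cons (nat_lit 57202) <| List.cons (nat_lit 58515) <| List.cons (nat_lit 42916) <| List.cons (nat_lit 27316) <| List.cons (nat_lit 21412) <| List.cons (nat_lit 8137) <| List.nil) <|
  List.cons (nat_lit 106712, nat_lit 0, List.cons (nat_lit 38091) <| List.cons (nat_lit 26476) <| List.cons (nat_lit 33148) <| List.cons (nat_lit 17976) <| List.cons (nat_lit 1240) <| List.cons (nat_lit 51073) <| List.nil) <|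
  List.cons (nat_lit 107213, nat_lit 0, List.cons (nat_lit 55875) <| List.cons (nat_lit 14883) <| List.cons (nat_lit 42100) <| List.cons (nat_lit 34224) <| List.cons (nat_lit 22114) <| List.cons (nat_lit 280) <| List.nil) <|
  List.cons (nat_lit 107714, nat_lit 0, List.cons (nat_lit 36651) <| List.cons (nat_lit 41259) <| List.cons (nat_lit 32956) <| List.cons (nat_lit 4441) <| List.cons (nat_lit 5274) <| List.cons (nat_lit 32848) <| List.nil) <|
  List.cons (nat_lit 108215, nat_lit 0, List.cons (nat_lit 56691) <| List.cons (nat_lit 57074) <| List.cons (nat_lit 9408) <| List.cons (nat_lit 2978) <| List.cons (nat_lit 63922) <| List.cons (nat_lit 61640) <| List.nil) <|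
  List.cons (nat_lit 108716, nat_lit 0, List.cons (nat_lit 10779) <| List.cons (nat_lit 35548) <| List.cons (nat_lit 31899) <| List.cons (nat_lit 6408) <| List.cons (nat_lit 28712) <| List.cons (nat_lit 62881) <| List.nil) <|
  List.cons (nat_lit 109217, nat_lit 0, List.cons (nat_lit 9028) <| List.cons (nat_lit 53620) <| List.cons (nat_lit 23232) <| List.cons (nat_lit 52241) <| List.cons (nat_lit 26793) <| List.cons (nat_lit 3602) <| List.nil) <|
  List.cons (nat_lit 109718, nat_lit 0, List.cons (nat_lit 41931) <| List.cons (nat_lit 25035) <| List.cons (nat_lit 28156) <| List.cons (nat_lit 63963) <| List.cons (nat_lit 49208) <| List.cons (nat_lit 1953) <| List.nil) <|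
  List.cons (nat_lit 110219, nat_lit 0, List.cons (nat_lit 32740) <| List.cons (nat_lit 21556) <| List.cons (nat_lit 52563) <| List.cons (nat_lit 19984) <| List.cons (nat_lit 45001) <| List.cons (nat_lit 59666) <| List.nil) <|
  List.cons (nat_lit 110720, nat_lit 0, List.cons (nat_lit 2140) <| List.cons (nat_lit 30316) <| List.cons (nat_lit 55658) <| List.cons (nat_lit 29960) <| List.cons (nat_lit 38176) <| List.nil) <|
  List.cons (nat_lit 111221, nat_lit 0, List.cons (nat_lit 25539) <| List.cons (nat_lit 47380) <| List.cons (nat_lit 26164) <| List.cons (nat_lit 62114) <| List.cons (nat_lit 43232) <| List.cons (nat_lit 62905) <| List.nil) <|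
  List.cons (nat_lit 111722, nat_lit 0, List.cons (nat_lit 37659) <| List.cons (nat_lit 59115) <| List.cons (nat_lit 47404) <| List.cons (nat_lit 59404) <| List.cons (nat_lit 34168) <| List.cons (nat_lit 41617) <| List.nil) <|
  List.cons (nat_lit 112223, nat_lit 0, List.cons (nat_lit 44116) <| List.cons (nat_lit 40420) <| List.cons (nat_lit 22707) <| List.cons (nat_lit 46242) <| List.cons (nat_lit 47928) <| List.nil) <|
  List.cons (nat_lit 112724, nat_lit 0, List.cons (nat_lit 38476) <| List.cons (nat_lit 52444) <| List.cons (nat_lit 13130) <| List.cons (nat_lit 5769) <| List.cons (nat_lit 30864) <| List.nil) <|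
  List.cons (nat_lit 113225, nat_lit 0, List.cons (nat_lit 29380) <| List.cons (nat_lit 100) <| List.cons (nat_lit 4224) <| List.cons (nat_lit 3905) <| List.cons (nat_lit 26889) <| List.cons (nat_lit 58608) <| List.nil) <|
  List.cons (nat_lit 113726, nat_lit 0, List.cons (nat_lit 2763) <| List.cons (nat_lit 2569) <| List.cons (nat_lit 50812) <| List.cons (nat_lit 16345) <| List.cons (nat_lit 52712) <| List.cons (nat_lit 10913) <| List.nil) <|
  List.cons (nat_lit 114227, nat_lit 0, List.cons (nat_lit 21154) <| List.cons (nat_lit 54147) <| List.cons (nat_lit 5380) <| List.cons (nat_lit 40420) <| List.cons (nat_lit 26632) <| List.cons (nat_lit 57220) <| List.nil) <|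
  List.cons (nat_lit 114728, nat_lit 0, List.cons (nat_lit 12075) <| List.cons (nat_lit 19368) <| List.cons (nat_lit 22444) <| List.cons (nat_lit 26956) <| List.cons (nat_lit 34168) <| List.cons (nat_lit 47664) <| List.nil) <|
  List.cons (nat_lit 115229, nat_lit 0, List.cons (nat_lit 38403) <| List.cons (nat_lit 46899) <| List.cons (nat_lit 15940) <| List.cons (nat_lit 40563) <| List.cons (nat_lit 36656) <| List.cons (nat_lit 9688) <| List.nil) <|
  List.cons (nat_lit 115730, nat_lit 0, List.cons (nat_lit 45052) <| List.cons (nat_lit 58684) <| List.cons (nat_lit 2378) <| List.cons (nat_lit 50105) <| List.cons (nat_lit 16112) <| List.nil) <|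
  List.cons (nat_lit 116231, nat_lit 0, List.cons (nat_lit 23956) <| List.cons (nat_lit 8356) <| List.cons (nat_lit 60240) <| List.cons (nat_lit 57296) <| List.cons (nat_lit 19833) <| List.nil) <|
  List.cons (nat_lit 116732, nat_lit 0, List.cons (nat_lit 17019) <| List.cons (nat_lit 19899) <| List.cons (nat_lit 53452) <| List.cons (nat_lit 63387) <| List.cons (nat_lit 57850) <| List.cons (nat_lit 24032) <| List.nil) <|
  List.cons (nat_lit 117233, nat_lit 0, List.cons (nat_lit 1683) <| List.cons (nat_lit 43682) <| List.cons (nat_lit 34660) <| List.cons (nat_lit 28468) <| List.cons (nat_lit 32720) <| List.cons (nat_lit 5816) <| List.nil) <|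
  List.cons (nat_lit 117734, nat_lit 0, List.cons (nat_lit 31803) <| List.cons (nat_lit 26283) <| List.cons (nat_lit 41884) <| List.cons (nat_lit 8811) <| List.cons (nat_lit 43449) <| List.cons (nat_lit 41488) <| List.nil) <|
  List.cons (nat_lit 118235, nat_lit 0, List.cons (nat_lit 29764) <| List.cons (nat_lit 26979) <| List.cons (nat_lit 60674) <| List.cons (nat_lit 49698) <| List.cons (nat_lit 45945) <| List.nil) <|
  List.cons (nat_lit 118736, nat_lit 0, List.cons (nat_lit 34779) <| List.cons (nat_lit 28683) <| List.cons (nat_lit 11692) <| List.cons (nat_lit 17785) <| List.cons (nat_lit 51882) <| List.cons (nat_lit 30304) <| List.nil) <|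
  List.cons (nat_lit 119237, nat_lit 0, List.cons (nat_lit 57075) <| List.cons (nat_lit 60770) <| List.cons (nat_lit 17764) <| List.cons (nat_lit 16996) <| List.cons (nat_lit 23489) <| List.cons (nat_lit 35945) <| List.nil) <|
  List.cons (nat_lit 119738, nat_lit 0, List.cons (nat_lit 15627) <| List.cons (nat_lit 3387) <| List.cons (nat_lit 2716) <| List.cons (nat_lit 9577) <| List.cons (nat_lit 13400) <| List.cons (nat_lit 1440) <| List.nil) <|
  List.cons (nat_lit 120239, nat_lit 0, List.cons (nat_lit 24772) <| List.cons (nat_lit 46468) <| List.cons (nat_lit 12196) <| List.cons (nat_lit 23298) <| List.cons (nat_lit 47881) <| List.nil) <|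
  anc6

/-- anchors -/
def anc4 : List (ℕ × ℕ × List ℕ) :=
  List.cons (nat_lit 80660, nat_lit 0, List.cons (nat_lit 10156) <| List.cons (nat_lit 12940) <| List.cons (nat_lit 57530) <| List.cons (nat_lit 22809) <| List.cons (nat_lit 832) <| List.nil) <|
  List.cons (nat_lit 81161, nat_lit 0, List.cons (nat_lit 14067) <| List.cons (nat_lit 18675) <| List.cons (nat_lit 63652) <| List.cons (nat_lit 1584) <| List.cons (nat_lit 25569) <| List.cons (nat_lit 6953) <| List.nil) <|
  List.cons (nat_lit 81662, nat_lit 0, List.cons (nat_lit 34204) <| List.cons (nat_lit 50043) <| List.cons (nat_lit 7516) <| List.cons (nat_lit 46041) <| List.cons (nat_lit 33867) <| List.cons (nat_lit 50192) <| List.nil) <|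
  List.cons (nat_lit 82163, nat_lit 0, List.cons (nat_lit 51267) <| List.cons (nat_lit 27506) <| List.cons (nat_lit 21556) <| List.cons (nat_lit 20433) <| List.cons (nat_lit 38116) <| List.cons (nat_lit 8) <| List.cons (nat_lit 144) <| List.nil) <|
  List.cons (nat_lit 82664, nat_lit 0, List.cons (nat_lit 5020) <| List.cons (nat_lit 51963) <| List.cons (nat_lit 64396) <| List.cons (nat_lit 6025) <| List.cons (nat_lit 26888) <| List.cons (nat_lit 56320) <| List.nil) <|
  List.cons (nat_lit 83165, nat_lit 0, List.cons (nat_lit 50451) <| List.cons (nat_lit 50593) <| List.cons (nat_lit 50256) <| List.cons (nat_lit 60675) <| List.cons (nat_lit 25266) <| List.cons (nat_lit 7497) <| List.nil) <|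
  List.cons (nat_lit 83666, nat_lit 0, List.cons (nat_lit 54411) <| List.cons (nat_lit 20140) <| List.cons (nat_lit 11644) <| List.cons (nat_lit 8010) <| List.cons (nat_lit 20432) <| List.cons (nat_lit 61224) <| List.nil) <|
  List.cons (nat_lit 84167, nat_lit 0, List.cons (nat_lit 62739) <| List.cons (nat_lit 3171) <| List.cons (nat_lit 57748) <| List.cons (nat_lit 16945) <| List.cons (nat_lit 40097) <| List.cons (nat_lit 14616) <| List.nil) <|
  List.cons (nat_lit 84668, nat_lit 0, List.cons (nat_lit 32122) <| List.cons (nat_lit 5211) <| List.cons (nat_lit 60364) <| List.cons (nat_lit 23980) <| List.cons (nat_lit 47738) <| List.cons (nat_lit 47153) <| List.nil) <|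
  List.cons (nat_lit 85169, nat_lit 0, List.cons (nat_lit 37011) <| List.cons (nat_lit 24244) <| List.cons (nat_lit 34756) <| List.cons (nat_lit 47956) <| List.cons (nat_lit 11888) <| List.cons (nat_lit 39961) <| List.nil) <|
  List.cons (nat_lit 85670, nat_lit 0, List.cons (nat_lit 49515) <| List.cons (nat_lit 52008) <| List.cons (nat_lit 2140) <| List.cons (nat_lit 19612) <| List.cons (nat_lit 21210) <| List.cons (nat_lit 21872) <| List.nil) <|
  List.cons (nat_lit 86171, nat_lit 0, List.cons (nat_lit 7858) <| List.cons (nat_lit 1971) <| List.cons (nat_lit 2162) <| List.cons (nat_lit 867) <| List.cons (nat_lit 61776) <| List.cons (nat_lit 21385) <| List.nil) <|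
  List.cons (nat_lit 86672, nat_lit 0, List.cons (nat_lit 59739) <| List.cons (nat_lit 2188) <| List.cons (nat_lit 28588) <| List.cons (nat_lit 19576) <| List.cons (nat_lit 33137) <| List.nil) <|
  List.cons (nat_lit 87173, nat_lit 0, List.cons (nat_lit 45220) <| List.cons (nat_lit 29044) <| List.cons (nat_lit 21988) <| List.cons (nat_lit 11778) <| List.cons (nat_lit 7288) <| List.nil) <|
  List.cons (nat_lit 87674, nat_lit 0, List.cons (nat_lit 44476) <| List.cons (nat_lit 4204) <| List.cons (nat_lit 41980) <| List.cons (nat_lit 43194) <| List.cons (nat_lit 19153) <| List.nil) <|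
  List.cons (nat_lit 88175, nat_lit 0, List.cons (nat_lit 36915) <| List.cons (nat_lit 42194) <| List.cons (nat_lit 30724) <| List.cons (nat_lit 53716) <| List.cons (nat_lit 7506) <| List.cons (nat_lit 2777) <| List.nil) <|
  List.cons (nat_lit 88676, nat_lit 0, List.cons (nat_lit 54027) <| List.cons (nat_lit 39100) <| List.cons (nat_lit 11788) <| List.cons (nat_lit 37240) <| List.cons (nat_lit 61178) <| List.cons (nat_lit 20369) <| List.nil) <|
  List.cons (nat_lit 89177, nat_lit 0, List.cons (nat_lit 24916) <| List.cons (nat_lit 22708) <| List.cons (nat_lit 45316) <| List.cons (nat_lit 50080) <| List.cons (nat_lit 44504) <| List.nil) <|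
  List.cons (nat_lit 89678, nat_lit 0, List.cons (nat_lit 25324) <| List.cons (nat_lit 64444) <| List.cons (nat_lit 41928) <| List.cons (nat_lit 42920) <| List.cons (nat_lit 21073) <| List.nil) <|
  List.cons (nat_lit 90179, nat_lit 0, List.cons (nat_lit 63795) <| List.cons (nat_lit 63986) <| List.cons (nat_lit 33844) <| List.cons (nat_lit 35043) <| List.cons (nat_lit 36258) <| List.cons (nat_lit 23560) <| List.nil) <|
  List.cons (nat_lit 90680, nat_lit 0, List.cons (nat_lit 32283) <| List.cons (nat_lit 27340) <| List.cons (nat_lit 33292) <| List.cons (nat_lit 42857) <| List.cons (nat_lit 62881) <| List.nil) <|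
  List.cons (nat_lit 91181, nat_lit 0, List.cons (nat_lit 339) <| List.cons (nat_lit 15267) <| List.cons (nat_lit 22708) <| List.cons (nat_lit 21267) <| List.cons (nat_lit 6321) <| List.cons (nat_lit 8120) <| List.nil) <|
  List.cons (nat_lit 91682, nat_lit 0, List.cons (nat_lit 64011) <| List.cons (nat_lit 25660) <| List.cons (nat_lit 61996) <| List.cons (nat_lit 41337) <| List.cons (nat_lit 21153) <| List.cons (nat_lit 30314) <| List.nil) <|
  List.cons (nat_lit 92183, nat_lit 0, List.cons (nat_lit 38067) <| List.cons (nat_lit 54290) <| List.cons (nat_lit 14548) <| List.cons (nat_lit 100) <| List.cons (nat_lit 62657) <| List.cons (nat_lit 53721) <| List.nil) <|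
  List.cons (nat_lit 92684, nat_lit 0, List.cons (nat_lit 652) <| List.cons (nat_lit 43900) <| List.cons (nat_lit 25608) <| List.cons (nat_lit 1242) <| List.cons (nat_lit 47601) <| List.nil) <|
  List.cons (nat_lit 93185, nat_lit 0, List.cons (nat_lit 4371) <| List.cons (nat_lit 5092) <| List.cons (nat_lit 19444) <| List.cons (nat_lit 8096) <| List.cons (nat_lit 58657) <| List.cons (nat_lit 23704) <| List.nil) <|
  List.cons (nat_lit 93686, nat_lit 0, List.cons (nat_lit 41499) <| List.cons (nat_lit 6651) <| List.cons (nat_lit 43852) <| List.cons (nat_lit 14713) <| List.cons (nat_lit 35336) <| List.cons (nat_lit 56528) <| List.nil) <|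
  List.cons (nat_lit 94187, nat_lit 0, List.cons (nat_lit 5571) <| List.cons (nat_lit 36963) <| List.cons (nat_lit 41284) <| List.cons (nat_lit 21986) <| List.cons (nat_lit 19042) <| List.cons (nat_lit 21640) <| List.nil) <|
  List.cons (nat_lit 94688, nat_lit 0, List.cons (nat_lit 21675) <| List.cons (nat_lit 52443) <| List.cons (nat_lit 15100) <| List.cons (nat_lit 21340) <| List.cons (nat_lit 54634) <| List.cons (nat_lit 9536) <| List.nil) <|
  List.cons (nat_lit 95189, nat_lit 0, List.cons (nat_lit 28564) <| List.cons (nat_lit 25060) <| List.cons (nat_lit 4276) <| List.cons (nat_lit 28594) <| List.cons (nat_lit 2505) <| List.nil) <|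
  List.cons (nat_lit 95690, nat_lit 0, List.cons (nat_lit 19386) <| List.cons (nat_lit 9052) <| List.cons (nat_lit 171) <| List.cons (nat_lit 22057) <| List.cons (nat_lit 9337) <| List.cons (nat_lit 50688) <| List.nil) <|
  List.cons (nat_lit 96191, nat_lit 0, List.cons (nat_lit 50115) <| List.cons (nat_lit 54674) <| List.cons (nat_lit 11140) <| List.cons (nat_lit 42915) <| List.cons (nat_lit 40306) <| List.cons (nat_lit 20729) <| List.nil) <|
  List.cons (nat_lit 96692, nat_lit 0, List.cons (nat_lit 33963) <| List.cons (nat_lit 27099) <| List.cons (nat_lit 16684) <| List.cons (nat_lit 313) <| List.cons (nat_lit 54969) <| List.cons (nat_lit 6784) <| List.nil) <|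
  List.cons (nat_lit 97193, nat_lit 0, List.cons (nat_lit 4227) <| List.cons (nat_lit 26404) <| List.cons (nat_lit 52132) <| List.cons (nat_lit 43876) <| List.cons (nat_lit 27057) <| List.cons (nat_lit 52073) <| List.nil) <|
  List.cons (nat_lit 97694, nat_lit 0, List.cons (nat_lit 2523) <| List.cons (nat_lit 35116) <| List.cons (nat_lit 48124) <| List.cons (nat_lit 41946) <| List.cons (nat_lit 459) <| List.cons (nat_lit 19200) <| List.nil) <|
  List.cons (nat_lit 98195, nat_lit 0, List.cons (nat_lit 25300) <| List.cons (nat_lit 59332) <| List.cons (nat_lit 53520) <| List.cons (nat_lit 56704) <| List.cons (nat_lit 15384) <| List.nil) <|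
  List.cons (nat_lit 98696, nat_lit 0, List.cons (nat_lit 58635) <| List.cons (nat_lit 29883) <| List.cons (nat_lit 44812) <| List.cons (nat_lit 17595) <| List.cons (nat_lit 2554) <| List.cons (nat_lit 45217) <| List.nil) <|
  List.cons (nat_lit 99197, nat_lit 0, List.cons (nat_lit 36724) <| List.cons (nat_lit 42051) <| List.cons (nat_lit 46131) <| List.cons (nat_lit 33921) <| List.cons (nat_lit 32841) <| List.nil) <|
  List.cons (nat_lit 99698, nat_lit 0, List.cons (nat_lit 49258) <| List.cons (nat_lit 56284) <| List.cons (nat_lit 59692) <| List.cons (nat_lit 19034) <| List.cons (nat_lit 26657) <| List.nil) <|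
  List.cons (nat_lit 100199, nat_lit 0, List.cons (nat_lit 40179) <| List.cons (nat_lit 34899) <| List.cons (nat_lit 54148) <| List.cons (nat_lit 10513) <| List.cons (nat_lit 38433) <| List.cons (nat_lit 52585) <| List.nil) <|
  anc5

/-- anchors -/
def anc3 : List (ℕ × ℕ × List ℕ) :=
  List.cons (nat_lit 60620, nat_lit 0, List.cons (nat_lit 29499) <| List.cons (nat_lit 26811) <| List.cons (nat_lit 22492) <| List.cons (nat_lit 11352) <| List.cons (nat_lit 48345) <| List.cons (nat_lit 31489) <| List.nil) <|
  List.cons (nat_lit 61121, nat_lit 0, List.cons (nat_lit 31443) <| List.cons (nat_lit 47523) <| List.cons (nat_lit 4564) <| List.cons (nat_lit 63554) <| List.cons (nat_lit 60976) <| List.cons (nat_lit 12152) <| List.nil) <|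
  List.cons (nat_lit 61622, nat_lit 0, List.cons (nat_lit 18459) <| List.cons (nat_lit 1851) <| List.cons (nat_lit 64204) <| List.cons (nat_lit 50568) <| List.cons (nat_lit 29048) <| List.cons (nat_lit 897) <| List.nil) <|
  List.cons (nat_lit 62123, nat_lit 0, List.cons (nat_lit 61731) <| List.cons (nat_lit 31587) <| List.cons (nat_lit 40948) <| List.cons (nat_lit 48914) <| List.cons (nat_lit 10912) <| List.cons (nat_lit 59801) <| List.nil) <|
  List.cons (nat_lit 62624, nat_lit 0, List.cons (nat_lit 60267) <| List.cons (nat_lit 61036) <| List.cons (nat_lit 32380) <| List.cons (nat_lit 1033) <| List.cons (nat_lit 26792) <| List.cons (nat_lit 44896) <| List.nil) <|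
  List.cons (nat_lit 63125, nat_lit 0, List.cons (nat_lit 11955) <| List.cons (nat_lit 10372) <| List.cons (nat_lit 25636) <| List.cons (nat_lit 43539) <| List.cons (nat_lit 58882) <| List.cons (nat_lit 16041) <| List.nil) <|
  List.cons (nat_lit 63626, nat_lit 0, List.cons (nat_lit 18076) <| List.cons (nat_lit 49372) <| List.cons (nat_lit 20715) <| List.cons (nat_lit 14440) <| List.cons (nat_lit 24545) <| List.nil) <|
  List.cons (nat_lit 64127, nat_lit 0, List.cons (nat_lit 44932) <| List.cons (nat_lit 38020) <| List.cons (nat_lit 17236) <| List.cons (nat_lit 5889) <| List.cons (nat_lit 55385) <| List.nil) <|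
  List.cons (nat_lit 64628, nat_lit 0, List.cons (nat_lit 33628) <| List.cons (nat_lit 3484) <| List.cons (nat_lit 22251) <| List.cons (nat_lit 52137) <| List.cons (nat_lit 23840) <| List.nil) <|
  List.cons (nat_lit 65129, nat_lit 0, List.cons (nat_lit 6052) <| List.cons (nat_lit 36148) <| List.cons (nat_lit 61395) <| List.cons (nat_lit 26529) <| List.cons (nat_lit 6328) <| List.nil) <|
  List.cons (nat_lit 65630, nat_lit 0, List.cons (nat_lit 60747) <| List.cons (nat_lit 8091) <| List.cons (nat_lit 22444) <| List.cons (nat_lit 43803) <| List.cons (nat_lit 52696) <| List.cons (nat_lit 56129) <| List.nil) <|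
  List.cons (nat_lit 66131, nat_lit 0, List.cons (nat_lit 64642) <| List.cons (nat_lit 20595) <| List.cons (nat_lit 55490) <| List.cons (nat_lit 53428) <| List.cons (nat_lit 12385) <| List.cons (nat_lit 25129) <| List.cons (nat_lit 52225) <| List.nil) <|
  List.cons (nat_lit 66632, nat_lit 0, List.cons (nat_lit 52395) <| List.cons (nat_lit 37563) <| List.cons (nat_lit 58204) <| List.cons (nat_lit 8667) <| List.cons (nat_lit 5770) <| List.cons (nat_lit 17312) <| List.nil) <|
  List.cons (nat_lit 67133, nat_lit 0, List.cons (nat_lit 9460) <| List.cons (nat_lit 4516) <| List.cons (nat_lit 36610) <| List.cons (nat_lit 32201) <| List.cons (nat_lit 13874) <| List.nil) <|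
  List.cons (nat_lit 67634, nat_lit 0, List.cons (nat_lit 33915) <| List.cons (nat_lit 23691) <| List.cons (nat_lit 29212) <| List.cons (nat_lit 124) <| List.cons (nat_lit 52186) <| List.cons (nat_lit 58352) <| List.nil) <|
  List.cons (nat_lit 68135, nat_lit 0, List.cons (nat_lit 26115) <| List.cons (nat_lit 1107) <| List.cons (nat_lit 16948) <| List.cons (nat_lit 6099) <| List.cons (nat_lit 34145) <| List.cons (nat_lit 16168) <| List.nil) <|
  List.cons (nat_lit 68636, nat_lit 0, List.cons (nat_lit 38524) <| List.cons (nat_lit 3532) <| List.cons (nat_lit 48748) <| List.cons (nat_lit 43578) <| List.cons (nat_lit 22592) <| List.cons (nat_lit 64584) <| List.nil) <|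
  List.cons (nat_lit 69137, nat_lit 0, List.cons (nat_lit 47908) <| List.cons (nat_lit 22660) <| List.cons (nat_lit 22273) <| List.cons (nat_lit 978) <| List.cons (nat_lit 47208) <| List.cons (nat_lit 63891) <| List.nil) <|
  List.cons (nat_lit 69638, nat_lit 0, List.cons (nat_lit 23979) <| List.cons (nat_lit 57195) <| List.cons (nat_lit 4924) <| List.cons (nat_lit 34780) <| List.cons (nat_lit 12345) <| List.cons (nat_lit 42289) <| List.cons (nat_lit 61032) <| List.nil) <|
  List.cons (nat_lit 70139, nat_lit 0, List.cons (nat_lit 35475) <| List.cons (nat_lit 51268) <| List.cons (nat_lit 48483) <| List.cons (nat_lit 63712) <| List.cons (nat_lit 57001) <| List.cons (nat_lit 46372) <| List.nil) <|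
  List.cons (nat_lit 70640, nat_lit 0, List.cons (nat_lit 33819) <| List.cons (nat_lit 13227) <| List.cons (nat_lit 63244) <| List.cons (nat_lit 51098) <| List.cons (nat_lit 45546) <| List.cons (nat_lit 17665) <| List.nil) <|
  List.cons (nat_lit 71141, nat_lit 0, List.cons (nat_lit 8499) <| List.cons (nat_lit 63267) <| List.cons (nat_lit 7252) <| List.cons (nat_lit 19489) <| List.cons (nat_lit 9393) <| List.cons (nat_lit 37657) <| List.nil) <|
  List.cons (nat_lit 71642, nat_lit 0, List.cons (nat_lit 5883) <| List.cons (nat_lit 31515) <| List.cons (nat_lit 42268) <| List.cons (nat_lit 12987) <| List.cons (nat_lit 15177) <| List.cons (nat_lit 3440) <| List.nil) <|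
  List.cons (nat_lit 72143, nat_lit 0, List.cons (nat_lit 18771) <| List.cons (nat_lit 23617) <| List.cons (nat_lit 47572) <| List.cons (nat_lit 64611) <| List.cons (nat_lit 13041) <| List.cons (nat_lit 3833) <| List.nil) <|
  List.cons (nat_lit 72644, nat_lit 0, List.cons (nat_lit 51580) <| List.cons (nat_lit 11164) <| List.cons (nat_lit 49948) <| List.cons (nat_lit 15706) <| List.cons (nat_lit 54288) <| List.nil) <|
  List.cons (nat_lit 73145, nat_lit 0, List.cons (nat_lit 51652) <| List.cons (nat_lit 4516) <| List.cons (nat_lit 8450) <| List.cons (nat_lit 40498) <| List.cons (nat_lit 19513) <| List.nil) <|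
  List.cons (nat_lit 73646, nat_lit 0, List.cons (nat_lit 63244) <| List.cons (nat_lit 22492) <| List.cons (nat_lit 15386) <| List.cons (nat_lit 15322) <| List.cons (nat_lit 50400) <| List.nil) <|
  List.cons (nat_lit 74147, nat_lit 0, List.cons (nat_lit 20692) <| List.cons (nat_lit 2452) <| List.cons (nat_lit 31108) <| List.cons (nat_lit 14528) <| List.cons (nat_lit 58153) <| List.nil) <|
  List.cons (nat_lit 74648, nat_lit 0, List.cons (nat_lit 27610) <| List.cons (nat_lit 34251) <| List.cons (nat_lit 51964) <| List.cons (nat_lit 26332) <| List.cons (nat_lit 8353) <| List.nil) <|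
  List.cons (nat_lit 75149, nat_lit 0, List.cons (nat_lit 58179) <| List.cons (nat_lit 47859) <| List.cons (nat_lit 35620) <| List.cons (nat_lit 19586) <| List.cons (nat_lit 9330) <| List.cons (nat_lit 13465) <| List.nil) <|
  List.cons (nat_lit 75650, nat_lit 0, List.cons (nat_lit 27867) <| List.cons (nat_lit 25752) <| List.cons (nat_lit 40924) <| List.cons (nat_lit 24264) <| List.cons (nat_lit 17146) <| List.cons (nat_lit 50833) <| List.nil) <|
  List.cons (nat_lit 76151, nat_lit 0, List.cons (nat_lit 30675) <| List.cons (nat_lit 46659) <| List.cons (nat_lit 2452) <| List.cons (nat_lit 16466) <| List.cons (nat_lit 32336) <| List.cons (nat_lit 4632) <| List.nil) <|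
  List.cons (nat_lit 76652, nat_lit 0, List.cons (nat_lit 15004) <| List.cons (nat_lit 19179) <| List.cons (nat_lit 57820) <| List.cons (nat_lit 12570) <| List.cons (nat_lit 45601) <| List.cons (nat_lit 60842) <| List.nil) <|
  List.cons (nat_lit 77153, nat_lit 0, List.cons (nat_lit 34323) <| List.cons (nat_lit 56834) <| List.cons (nat_lit 63748) <| List.cons (nat_lit 14836) <| List.cons (nat_lit 43953) <| List.cons (nat_lit 46985) <| List.nil) <|
  List.cons (nat_lit 77654, nat_lit 0, List.cons (nat_lit 23451) <| List.cons (nat_lit 12267) <| List.cons (nat_lit 20284) <| List.cons (nat_lit 58779) <| List.cons (nat_lit 14938) <| List.cons (nat_lit 17264) <| List.nil) <|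
  List.cons (nat_lit 78155, nat_lit 0, List.cons (nat_lit 19554) <| List.cons (nat_lit 44355) <| List.cons (nat_lit 45264) <| List.cons (nat_lit 41092) <| List.cons (nat_lit 16276) <| List.cons (nat_lit 9032) <| List.nil) <|
  List.cons (nat_lit 78656, nat_lit 0, List.cons (nat_lit 62571) <| List.cons (nat_lit 26427) <| List.cons (nat_lit 31564) <| List.cons (nat_lit 60362) <| List.cons (nat_lit 25498) <| List.cons (nat_lit 12577) <| List.nil) <|
  List.cons (nat_lit 79157, nat_lit 0, List.cons (nat_lit 4180) <| List.cons (nat_lit 3556) <| List.cons (nat_lit 43108) <| List.cons (nat_lit 36257) <| List.cons (nat_lit 44489) <| List.nil) <|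
  List.cons (nat_lit 79658, nat_lit 0, List.cons (nat_lit 6075) <| List.cons (nat_lit 5643) <| List.cons (nat_lit 29692) <| List.cons (nat_lit 63384) <| List.cons (nat_lit 46698) <| List.cons (nat_lit 57024) <| List.nil) <|
  List.cons (nat_lit 80159, nat_lit 0, List.cons (nat_lit 51459) <| List.cons (nat_lit 50114) <| List.cons (nat_lit 54916) <| List.cons (nat_lit 12640) <| List.cons (nat_lit 58617) <| List.cons (nat_lit 4944) <| List.nil) <|
  anc4

/-- anchors -/
def anc2 : List (ℕ × ℕ × List ℕ) :=
  List.cons (nat_lit 40580, nat_lit 0, List.cons (nat_lit 36364) <| List.cons (nat_lit 12796) <| List.cons (nat_lit 2186) <| List.cons (nat_lit 63065) <| List.cons (nat_lit 58800) <| List.nil) <|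
  List.cons (nat_lit 41081, nat_lit 0, List.cons (nat_lit 63796) <| List.cons (nat_lit 46660) <| List.cons (nat_lit 1441) <| List.cons (nat_lit 37840) <| List.cons (nat_lit 26921) <| List.nil) <|
  List.cons (nat_lit 41582, nat_lit 0, List.cons (nat_lit 1851) <| List.cons (nat_lit 41691) <| List.cons (nat_lit 2188) <| List.cons (nat_lit 56425) <| List.cons (nat_lit 47914) <| List.cons (nat_lit 609) <| List.cons (nat_lit 63386) <| List.nil) <|
  List.cons (nat_lit 42083, nat_lit 0, List.cons (nat_lit 9074) <| List.cons (nat_lit 15267) <| List.cons (nat_lit 31587) <| List.cons (nat_lit 63124) <| List.cons (nat_lit 43072) <| List.cons (nat_lit 53288) <| List.cons (nat_lit 49632) <| List.nil) <|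
  List.cons (nat_lit 42584, nat_lit 0, List.cons (nat_lit 48106) <| List.cons (nat_lit 37851) <| List.cons (nat_lit 15627) <| List.cons (nat_lit 42892) <| List.cons (nat_lit 55560) <| List.cons (nat_lit 50832) <| List.nil) <|
  List.cons (nat_lit 43085, nat_lit 0, List.cons (nat_lit 46035) <| List.cons (nat_lit 13684) <| List.cons (nat_lit 63508) <| List.cons (nat_lit 17393) <| List.cons (nat_lit 60889) <| List.cons (nat_lit 32739) <| List.nil) <|
  List.cons (nat_lit 43586, nat_lit 0, List.cons (nat_lit 47500) <| List.cons (nat_lit 26620) <| List.cons (nat_lit 62763) <| List.cons (nat_lit 57753) <| List.cons (nat_lit 57984) <| List.cons (nat_lit 41114) <| List.nil) <|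
  List.cons (nat_lit 44087, nat_lit 0, List.cons (nat_lit 19251) <| List.cons (nat_lit 33171) <| List.cons (nat_lit 39748) <| List.cons (nat_lit 51697) <| List.cons (nat_lit 22242) <| List.cons (nat_lit 64744) <| List.cons (nat_lit 59763) <| List.nil) <|
  List.cons (nat_lit 44588, nat_lit 0, List.cons (nat_lit 44091) <| List.cons (nat_lit 51340) <| List.cons (nat_lit 19372) <| List.cons (nat_lit 24537) <| List.cons (nat_lit 8369) <| List.nil) <|
  List.cons (nat_lit 45089, nat_lit 0, List.cons (nat_lit 45171) <| List.cons (nat_lit 23043) <| List.cons (nat_lit 29524) <| List.cons (nat_lit 38640) <| List.cons (nat_lit 19266) <| List.cons (nat_lit 26376) <| List.nil) <|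
  List.cons (nat_lit 45590, nat_lit 0, List.cons (nat_lit 12123) <| List.cons (nat_lit 15482) <| List.cons (nat_lit 3531) <| List.cons (nat_lit 28156) <| List.cons (nat_lit 17866) <| List.cons (nat_lit 18336) <| List.cons (nat_lit 34874) <| List.nil) <|
  List.cons (nat_lit 46091, nat_lit 0, List.cons (nat_lit 37155) <| List.cons (nat_lit 15699) <| List.cons (nat_lit 25059) <| List.cons (nat_lit 52324) <| List.cons (nat_lit 6210) <| List.cons (nat_lit 12232) <| List.nil) <|
  List.cons (nat_lit 46592, nat_lit 0, List.cons (nat_lit 747) <| List.cons (nat_lit 62668) <| List.cons (nat_lit 25660) <| List.cons (nat_lit 16056) <| List.cons (nat_lit 61769) <| List.cons (nat_lit 36416) <| List.nil) <|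
  List.cons (nat_lit 47093, nat_lit 0, List.cons (nat_lit 26547) <| List.cons (nat_lit 34273) <| List.cons (nat_lit 35860) <| List.cons (nat_lit 24820) <| List.cons (nat_lit 30450) <| List.cons (nat_lit 31017) <| List.nil) <|
  List.cons (nat_lit 47594, nat_lit 0, List.cons (nat_lit 19036) <| List.cons (nat_lit 23547) <| List.cons (nat_lit 54652) <| List.cons (nat_lit 20826) <| List.cons (nat_lit 20385) <| List.nil) <|
  List.cons (nat_lit 48095, nat_lit 0, List.cons (nat_lit 47428) <| List.cons (nat_lit 38932) <| List.cons (nat_lit 578) <| List.cons (nat_lit 9153) <| List.cons (nat_lit 19481) <| List.nil) <|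
  List.cons (nat_lit 48596, nat_lit 0, List.cons (nat_lit 27066) <| List.cons (nat_lit 64491) <| List.cons (nat_lit 56284) <| List.cons (nat_lit 11020) <| List.cons (nat_lit 58896) <| List.cons (nat_lit 25084) <| List.nil) <|
  List.cons (nat_lit 49097, nat_lit 0, List.cons (nat_lit 15268) <| List.cons (nat_lit 10180) <| List.cons (nat_lit 32931) <| List.cons (nat_lit 33760) <| List.cons (nat_lit 45656) <| List.cons (nat_lit 57601) <| List.nil) <|
  List.cons (nat_lit 49598, nat_lit 0, List.cons (nat_lit 3339) <| List.cons (nat_lit 36459) <| List.cons (nat_lit 32428) <| List.cons (nat_lit 56666) <| List.cons (nat_lit 1482) <| List.cons (nat_lit 18945) <| List.nil) <|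
  List.cons (nat_lit 50099, nat_lit 0, List.cons (nat_lit 63507) <| List.cons (nat_lit 5812) <| List.cons (nat_lit 30244) <| List.cons (nat_lit 41152) <| List.cons (nat_lit 57648) <| List.cons (nat_lit 39192) <| List.nil) <|
  List.cons (nat_lit 50600, nat_lit 0, List.cons (nat_lit 11499) <| List.cons (nat_lit 53019) <| List.cons (nat_lit 24412) <| List.cons (nat_lit 62810) <| List.cons (nat_lit 57065) <| List.cons (nat_lit 7072) <| List.nil) <|
  List.cons (nat_lit 51101, nat_lit 0, List.cons (nat_lit 17811) <| List.cons (nat_lit 9891) <| List.cons (nat_lit 63652) <| List.cons (nat_lit 55827) <| List.cons (nat_lit 41170) <| List.cons (nat_lit 39673) <| List.nil) <|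
  List.cons (nat_lit 51602, nat_lit 0, List.cons (nat_lit 29403) <| List.cons (nat_lit 4347) <| List.cons (nat_lit 59644) <| List.cons (nat_lit 22777) <| List.cons (nat_lit 14024) <| List.cons (nat_lit 56736) <| List.nil) <|
  List.cons (nat_lit 52103, nat_lit 0, List.cons (nat_lit 31971) <| List.cons (nat_lit 55971) <| List.cons (nat_lit 60244) <| List.cons (nat_lit 13058) <| List.cons (nat_lit 13456) <| List.cons (nat_lit 35832) <| List.nil) <|
  List.cons (nat_lit 52604, nat_lit 0, List.cons (nat_lit 13948) <| List.cons (nat_lit 39868) <| List.cons (nat_lit 20666) <| List.cons (nat_lit 33928) <| List.cons (nat_lit 33472) <| List.cons (nat_lit 23544) <| List.nil) <|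
  List.cons (nat_lit 53105, nat_lit 0, List.cons (nat_lit 47620) <| List.cons (nat_lit 52228) <| List.cons (nat_lit 45122) <| List.cons (nat_lit 24546) <| List.cons (nat_lit 1193) <| List.nil) <|
  List.cons (nat_lit 53606, nat_lit 0, List.cons (nat_lit 57258) <| List.cons (nat_lit 54988) <| List.cons (nat_lit 32476) <| List.cons (nat_lit 17212) <| List.cons (nat_lit 30240) <| List.nil) <|
  List.cons (nat_lit 54107, nat_lit 0, List.cons (nat_lit 1251) <| List.cons (nat_lit 6194) <| List.cons (nat_lit 54724) <| List.cons (nat_lit 60676) <| List.cons (nat_lit 40961) <| List.cons (nat_lit 24616) <| List.nil) <|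
  List.cons (nat_lit 54608, nat_lit 0, List.cons (nat_lit 35980) <| List.cons (nat_lit 14428) <| List.cons (nat_lit 61708) <| List.cons (nat_lit 33736) <| List.cons (nat_lit 53489) <| List.nil) <|
  List.cons (nat_lit 55109, nat_lit 0, List.cons (nat_lit 63234) <| List.cons (nat_lit 33699) <| List.cons (nat_lit 31251) <| List.cons (nat_lit 28084) <| List.cons (nat_lit 6576) <| List.cons (nat_lit 32120) <| List.nil) <|
  List.cons (nat_lit 55610, nat_lit 0, List.cons (nat_lit 59547) <| List.cons (nat_lit 3384) <| List.cons (nat_lit 1180) <| List.cons (nat_lit 23304) <| List.cons (nat_lit 17993) <| List.cons (nat_lit 29713) <| List.nil) <|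
  List.cons (nat_lit 56111, nat_lit 0, List.cons (nat_lit 7109) <| List.cons (nat_lit 56802) <| List.cons (nat_lit 48633) <| List.cons (nat_lit 36192) <| List.nil) <|
  List.cons (nat_lit 56612, nat_lit 0, List.cons (nat_lit 4923) <| List.cons (nat_lit 7804) <| List.cons (nat_lit 32380) <| List.cons (nat_lit 10330) <| List.cons (nat_lit 9985) <| List.nil) <|
  List.cons (nat_lit 57113, nat_lit 0, List.cons (nat_lit 20931) <| List.cons (nat_lit 56260) <| List.cons (nat_lit 36628) <| List.cons (nat_lit 16848) <| List.cons (nat_lit 60208) <| List.cons (nat_lit 2905) <| List.nil) <|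
  List.cons (nat_lit 57614, nat_lit 0, List.cons (nat_lit 43515) <| List.cons (nat_lit 54460) <| List.cons (nat_lit 45820) <| List.cons (nat_lit 24441) <| List.cons (nat_lit 56417) <| List.nil) <|
  List.cons (nat_lit 58115, nat_lit 0, List.cons (nat_lit 62082) <| List.cons (nat_lit 3027) <| List.cons (nat_lit 14163) <| List.cons (nat_lit 59428) <| List.cons (nat_lit 35236) <| List.cons (nat_lit 50937) <| List.nil) <|
  List.cons (nat_lit 58616, nat_lit 0, List.cons (nat_lit 17931) <| List.cons (nat_lit 15769) <| List.cons (nat_lit 45820) <| List.cons (nat_lit 10204) <| List.cons (nat_lit 60666) <| List.cons (nat_lit 60193) <| List.nil) <|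
  List.cons (nat_lit 59117, nat_lit 0, List.cons (nat_lit 44932) <| List.cons (nat_lit 25779) <| List.cons (nat_lit 53284) <| List.cons (nat_lit 6675) <| List.cons (nat_lit 44945) <| List.cons (nat_lit 2521) <| List.nil) <|
  List.cons (nat_lit 59618, nat_lit 0, List.cons (nat_lit 27916) <| List.cons (nat_lit 28107) <| List.cons (nat_lit 18218) <| List.cons (nat_lit 25385) <| List.cons (nat_lit 46625) <| List.nil) <|
  List.cons (nat_lit 60119, nat_lit 0, List.cons (nat_lit 32355) <| List.cons (nat_lit 25011) <| List.cons (nat_lit 27890) <| List.cons (nat_lit 20260) <| List.cons (nat_lit 39472) <| List.cons (nat_lit 7816) <| List.nil) <|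
  anc3

/-- anchors -/
def anc1 : List (ℕ × ℕ × List ℕ) :=
  List.cons (nat_lit 20540, nat_lit 0, List.cons (nat_lit 10587) <| List.cons (nat_lit 26236) <| List.cons (nat_lit 38955) <| List.cons (nat_lit 54314) <| List.cons (nat_lit 44985) <| List.cons (nat_lit 15584) <| List.nil) <|
  List.cons (nat_lit 21041, nat_lit 0, List.cons (nat_lit 26883) <| List.cons (nat_lit 5571) <| List.cons (nat_lit 53188) <| List.cons (nat_lit 28705) <| List.cons (nat_lit 30449) <| List.cons (nat_lit 47817) <| List.nil) <|
  List.cons (nat_lit 21542, nat_lit 0, List.cons (nat_lit 507) <| List.cons (nat_lit 18988) <| List.cons (nat_lit 50620) <| List.cons (nat_lit 8104) <| List.cons (nat_lit 20912) <| List.cons (nat_lit 23498) <| List.nil) <|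
  List.cons (nat_lit 22043, nat_lit 0, List.cons (nat_lit 61396) <| List.cons (nat_lit 24915) <| List.cons (nat_lit 12004) <| List.cons (nat_lit 37330) <| List.cons (nat_lit 63161) <| List.nil) <|
  List.cons (nat_lit 22544, nat_lit 0, List.cons (nat_lit 4107) <| List.cons (nat_lit 33195) <| List.cons (nat_lit 24892) <| List.cons (nat_lit 63387) <| List.cons (nat_lit 56362) <| List.cons (nat_lit 24497) <| List.nil) <|
  List.cons (nat_lit 23045, nat_lit 0, List.cons (nat_lit 1492) <| List.cons (nat_lit 38740) <| List.cons (nat_lit 64370) <| List.cons (nat_lit 7472) <| List.cons (nat_lit 12617) <| List.nil) <|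
  List.cons (nat_lit 23546, nat_lit 0, List.cons (nat_lit 17242) <| List.cons (nat_lit 53307) <| List.cons (nat_lit 34732) <| List.cons (nat_lit 49372) <| List.cons (nat_lit 23978) <| List.cons (nat_lit 55488) <| List.nil) <|
  List.cons (nat_lit 24047, nat_lit 0, List.cons (nat_lit 291) <| List.cons (nat_lit 23187) <| List.cons (nat_lit 63076) <| List.cons (nat_lit 24817) <| List.cons (nat_lit 23648) <| List.cons (nat_lit 49944) <| List.nil) <|
  List.cons (nat_lit 24548, nat_lit 0, List.cons (nat_lit 34155) <| List.cons (nat_lit 4348) <| List.cons (nat_lit 56572) <| List.cons (nat_lit 49160) <| List.cons (nat_lit 47200) <| List.nil) <|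
  List.cons (nat_lit 25049, nat_lit 0, List.cons (nat_lit 12435) <| List.cons (nat_lit 24675) <| List.cons (nat_lit 43876) <| List.cons (nat_lit 10947) <| List.cons (nat_lit 61136) <| List.cons (nat_lit 54616) <| List.nil) <|
  List.cons (nat_lit 25550, nat_lit 0, List.cons (nat_lit 46348) <| List.cons (nat_lit 43226) <| List.cons (nat_lit 10396) <| List.cons (nat_lit 18297) <| List.cons (nat_lit 9040) <| List.nil) <|
  List.cons (nat_lit 26051, nat_lit 0, List.cons (nat_lit 36387) <| List.cons (nat_lit 5185) <| List.cons (nat_lit 8596) <| List.cons (nat_lit 56738) <| List.cons (nat_lit 21345) <| List.cons (nat_lit 60937) <| List.nil) <|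
  List.cons (nat_lit 26552, nat_lit 0, List.cons (nat_lit 54412) <| List.cons (nat_lit 57292) <| List.cons (nat_lit 4008) <| List.cons (nat_lit 64232) <| List.cons (nat_lit 39665) <| List.nil) <|
  List.cons (nat_lit 27053, nat_lit 0, List.cons (nat_lit 31394) <| List.cons (nat_lit 41236) <| List.cons (nat_lit 39744) <| List.cons (nat_lit 209) <| List.cons (nat_lit 192) <| List.cons (nat_lit 57944) <| List.nil) <|
  List.cons (nat_lit 27554, nat_lit 0, List.cons (nat_lit 57915) <| List.cons (nat_lit 18123) <| List.cons (nat_lit 25660) <| List.cons (nat_lit 1084) <| List.cons (nat_lit 28954) <| List.cons (nat_lit 20544) <| List.cons (nat_lit 63720) <| List.nil) <|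
  List.cons (nat_lit 28055, nat_lit 0, List.cons (nat_lit 14115) <| List.cons (nat_lit 52563) <| List.cons (nat_lit 37924) <| List.cons (nat_lit 58322) <| List.cons (nat_lit 1648) <| List.cons (nat_lit 39656) <| List.nil) <|
  List.cons (nat_lit 28556, nat_lit 0, List.cons (nat_lit 12794) <| List.cons (nat_lit 9336) <| List.cons (nat_lit 52780) <| List.cons (nat_lit 40680) <| List.cons (nat_lit 15178) <| List.cons (nat_lit 2256) <| List.cons (nat_lit 64108) <| List.nil) <|
  List.cons (nat_lit 29057, nat_lit 0, List.cons (nat_lit 37731) <| List.cons (nat_lit 47137) <| List.cons (nat_lit 11812) <| List.cons (nat_lit 34179) <| List.cons (nat_lit 13618) <| List.cons (nat_lit 54185) <| List.cons (nat_lit 54867) <| List.nil) <|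
  List.cons (nat_lit 29558, nat_lit 0, List.cons (nat_lit 24987) <| List.cons (nat_lit 44907) <| List.cons (nat_lit 64396) <| List.cons (nat_lit 8954) <| List.cons (nat_lit 7977) <| List.cons (nat_lit 59457) <| List.nil) <|
  List.cons (nat_lit 30059, nat_lit 0, List.cons (nat_lit 23475) <| List.cons (nat_lit 22417) <| List.cons (nat_lit 62740) <| List.cons (nat_lit 530) <| List.cons (nat_lit 13666) <| List.cons (nat_lit 50024) <| List.nil) <|
  List.cons (nat_lit 30560, nat_lit 0, List.cons (nat_lit 44938) <| List.cons (nat_lit 25899) <| List.cons (nat_lit 32044) <| List.cons (nat_lit 17884) <| List.cons (nat_lit 53113) <| List.cons (nat_lit 59121) <| List.nil) <|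
  List.cons (nat_lit 31061, nat_lit 0, List.cons (nat_lit 38034) <| List.cons (nat_lit 34372) <| List.cons (nat_lit 63364) <| List.cons (nat_lit 35860) <| List.cons (nat_lit 39209) <| List.nil) <|
  List.cons (nat_lit 31562, nat_lit 0, List.cons (nat_lit 60891) <| List.cons (nat_lit 55563) <| List.cons (nat_lit 41500) <| List.cons (nat_lit 31611) <| List.cons (nat_lit 6185) <| List.cons (nat_lit 45328) <| List.nil) <|
  List.cons (nat_lit 32063, nat_lit 0, List.cons (nat_lit 1156) <| List.cons (nat_lit 16707) <| List.cons (nat_lit 31012) <| List.cons (nat_lit 32656) <| List.cons (nat_lit 14248) <| List.nil) <|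
  List.cons (nat_lit 32564, nat_lit 0, List.cons (nat_lit 64204) <| List.cons (nat_lit 45196) <| List.cons (nat_lit 62473) <| List.cons (nat_lit 28072) <| List.cons (nat_lit 40064) <| List.nil) <|
  List.cons (nat_lit 33065, nat_lit 0, List.cons (nat_lit 12004) <| List.cons (nat_lit 43396) <| List.cons (nat_lit 340) <| List.cons (nat_lit 20752) <| List.cons (nat_lit 59096) <| List.nil) <|
  List.cons (nat_lit 33566, nat_lit 0, List.cons (nat_lit 56188) <| List.cons (nat_lit 32332) <| List.cons (nat_lit 18939) <| List.cons (nat_lit 825) <| List.cons (nat_lit 57984) <| List.nil) <|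
  List.cons (nat_lit 34067, nat_lit 0, List.cons (nat_lit 51555) <| List.cons (nat_lit 44931) <| List.cons (nat_lit 56164) <| List.cons (nat_lit 50752) <| List.cons (nat_lit 18393) <| List.cons (nat_lit 6963) <| List.nil) <|
  List.cons (nat_lit 34568, nat_lit 0, List.cons (nat_lit 11307) <| List.cons (nat_lit 40251) <| List.cons (nat_lit 58684) <| List.cons (nat_lit 26331) <| List.cons (nat_lit 3930) <| List.cons (nat_lit 23329) <| List.nil) <|
  List.cons (nat_lit 35069, nat_lit 0, List.cons (nat_lit 5667) <| List.cons (nat_lit 51460) <| List.cons (nat_lit 61588) <| List.cons (nat_lit 25793) <| List.cons (nat_lit 18336) <| List.cons (nat_lit 60313) <| List.nil) <|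
  List.cons (nat_lit 35570, nat_lit 0, List.cons (nat_lit 23499) <| List.cons (nat_lit 52252) <| List.cons (nat_lit 63051) <| List.cons (nat_lit 7996) <| List.cons (nat_lit 1304) <| List.cons (nat_lit 46897) <| List.nil) <|
  List.cons (nat_lit 36071, nat_lit 0, List.cons (nat_lit 63891) <| List.cons (nat_lit 54004) <| List.cons (nat_lit 10276) <| List.cons (nat_lit 17520) <| List.cons (nat_lit 34432) <| List.cons (nat_lit 1352) <| List.nil) <|
  List.cons (nat_lit 36572, nat_lit 0, List.cons (nat_lit 14716) <| List.cons (nat_lit 45435) <| List.cons (nat_lit 4684) <| List.cons (nat_lit 38890) <| List.cons (nat_lit 22032) <| List.cons (nat_lit 505) <| List.nil) <|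
  List.cons (nat_lit 37073, nat_lit 0, List.cons (nat_lit 61396) <| List.cons (nat_lit 28276) <| List.cons (nat_lit 40370) <| List.cons (nat_lit 34833) <| List.cons (nat_lit 7609) <| List.nil) <|
  List.cons (nat_lit 37574, nat_lit 0, List.cons (nat_lit 57531) <| List.cons (nat_lit 28251) <| List.cons (nat_lit 27291) <| List.cons (nat_lit 21627) <| List.cons (nat_lit 3832) <| List.cons (nat_lit 14561) <| List.nil) <|
  List.cons (nat_lit 38075, nat_lit 0, List.cons (nat_lit 40851) <| List.cons (nat_lit 38977) <| List.cons (nat_lit 49876) <| List.cons (nat_lit 27412) <| List.cons (nat_lit 51058) <| List.cons (nat_lit 48328) <| List.nil) <|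
  List.cons (nat_lit 38576, nat_lit 0, List.cons (nat_lit 27610) <| List.cons (nat_lit 2955) <| List.cons (nat_lit 16876) <| List.cons (nat_lit 28204) <| List.cons (nat_lit 21530) <| List.cons (nat_lit 3921) <| List.nil) <|
  List.cons (nat_lit 39077, nat_lit 0, List.cons (nat_lit 7170) <| List.cons (nat_lit 35571) <| List.cons (nat_lit 9603) <| List.cons (nat_lit 53284) <| List.cons (nat_lit 48099) <| List.cons (nat_lit 37753) <| List.nil) <|
  List.cons (nat_lit 39578, nat_lit 0, List.cons (nat_lit 25659) <| List.cons (nat_lit 12843) <| List.cons (nat_lit 28012) <| List.cons (nat_lit 44380) <| List.cons (nat_lit 39898) <| List.cons (nat_lit 41088) <| List.nil) <|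
  List.cons (nat_lit 40079, nat_lit 0, List.cons (nat_lit 63267) <| List.cons (nat_lit 28708) <| List.cons (nat_lit 30820) <| List.cons (nat_lit 15714) <| List.cons (nat_lit 64056) <| List.cons (nat_lit 3410) <| List.nil) <|
  anc2

/-- anchors -/
def anc0 : List (ℕ × ℕ × List ℕ) :=
  List.cons (nat_lit 500, nat_lit 0, List.cons (nat_lit 13659) <| List.cons (nat_lit 42988) <| List.cons (nat_lit 30940) <| List.cons (nat_lit 25672) <| List.cons (nat_lit 17040) <| List.cons (nat_lit 63195) <| List.nil) <|
  List.cons (nat_lit 1001, nat_lit 0, List.cons (nat_lit 29715) <| List.cons (nat_lit 38980) <| List.cons (nat_lit 20640) <| List.cons (nat_lit 63074) <| List.cons (nat_lit 33632) <| List.cons (nat_lit 18968) <| List.nil) <|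
  List.cons (nat_lit 1502, nat_lit 0, List.cons (nat_lit 40059) <| List.cons (nat_lit 41304) <| List.cons (nat_lit 29068) <| List.cons (nat_lit 54652) <| List.cons (nat_lit 33224) <| List.cons (nat_lit 43952) <| List.nil) <|
  List.cons (nat_lit 2003, nat_lit 0, List.cons (nat_lit 31731) <| List.cons (nat_lit 21556) <| List.cons (nat_lit 16658) <| List.cons (nat_lit 64467) <| List.cons (nat_lit 29056) <| List.cons (nat_lit 19369) <| List.nil) <|
  List.cons (nat_lit 2504, nat_lit 0, List.cons (nat_lit 29020) <| List.cons (nat_lit 50380) <| List.cons (nat_lit 49464) <| List.cons (nat_lit 4888) <| List.cons (nat_lit 23776) <| List.nil) <|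
  List.cons (nat_lit 3005, nat_lit 0, List.cons (nat_lit 28899) <| List.cons (nat_lit 60867) <| List.cons (nat_lit 52660) <| List.cons (nat_lit 29905) <| List.cons (nat_lit 8050) <| List.cons (nat_lit 45241) <| List.nil) <|
  List.cons (nat_lit 3506, nat_lit 0, List.cons (nat_lit 2380) <| List.cons (nat_lit 51676) <| List.cons (nat_lit 10056) <| List.cons (nat_lit 45786) <| List.cons (nat_lit 6273) <| List.nil) <|
  List.cons (nat_lit 4007, nat_lit 0, List.cons (nat_lit 8067) <| List.cons (nat_lit 16996) <| List.cons (nat_lit 20452) <| List.cons (nat_lit 35697) <| List.cons (nat_lit 54002) <| List.cons (nat_lit 33097) <| List.nil) <|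
  List.cons (nat_lit 4508, nat_lit 0, List.cons (nat_lit 43563) <| List.cons (nat_lit 2091) <| List.cons (nat_lit 43082) <| List.cons (nat_lit 12988) <| List.cons (nat_lit 37642) <| List.cons (nat_lit 22016) <| List.nil) <|
  List.cons (nat_lit 5009, nat_lit 0, List.cons (nat_lit 20260) <| List.cons (nat_lit 6916) <| List.cons (nat_lit 48340) <| List.cons (nat_lit 10529) <| List.cons (nat_lit 64425) <| List.nil) <|
  List.cons (nat_lit 5510, nat_lit 0, List.cons (nat_lit 40587) <| List.cons (nat_lit 18076) <| List.cons (nat_lit 11596) <| List.cons (nat_lit 57929) <| List.cons (nat_lit 28929) <| List.cons (nat_lit 63432) <| List.nil) <|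
  List.cons (nat_lit 6011, nat_lit 0, List.cons (nat_lit 17811) <| List.cons (nat_lit 4420) <| List.cons (nat_lit 22324) <| List.cons (nat_lit 2336) <| List.cons (nat_lit 36473) <| List.cons (nat_lit 18434) <| List.nil) <|
  List.cons (nat_lit 6512, nat_lit 0, List.cons (nat_lit 42411) <| List.cons (nat_lit 32236) <| List.cons (nat_lit 53932) <| List.cons (nat_lit 2553) <| List.cons (nat_lit 48401) <| List.cons (nat_lit 49706) <| List.nil) <|
  List.cons (nat_lit 7013, nat_lit 0, List.cons (nat_lit 21795) <| List.cons (nat_lit 14835) <| List.cons (nat_lit 57844) <| List.cons (nat_lit 42048) <| List.cons (nat_lit 51393) <| List.cons (nat_lit 57768) <| List.nil) <|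
  List.cons (nat_lit 7514, nat_lit 0, List.cons (nat_lit 53836) <| List.cons (nat_lit 45772) <| List.cons (nat_lit 2188) <| List.cons (nat_lit 40234) <| List.cons (nat_lit 56497) <| List.nil) <|
  List.cons (nat_lit 8015, nat_lit 0, List.cons (nat_lit 15172) <| List.cons (nat_lit 28852) <| List.cons (nat_lit 29235) <| List.cons (nat_lit 6032) <| List.cons (nat_lit 27944) <| List.nil) <|
  List.cons (nat_lit 8516, nat_lit 0, List.cons (nat_lit 55467) <| List.cons (nat_lit 28059) <| List.cons (nat_lit 64108) <| List.cons (nat_lit 15580) <| List.cons (nat_lit 36473) <| List.cons (nat_lit 11856) <| List.nil) <|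
  List.cons (nat_lit 9017, nat_lit 0, List.cons (nat_lit 62754) <| List.cons (nat_lit 43635) <| List.cons (nat_lit 41428) <| List.cons (nat_lit 59668) <| List.cons (nat_lit 36530) <| List.cons (nat_lit 43176) <| List.nil) <|
  List.cons (nat_lit 9518, nat_lit 0, List.cons (nat_lit 10684) <| List.cons (nat_lit 55036) <| List.cons (nat_lit 28394) <| List.cons (nat_lit 62074) <| List.cons (nat_lit 57089) <| List.nil) <|
  List.cons (nat_lit 10019, nat_lit 0, List.cons (nat_lit 19011) <| List.cons (nat_lit 12820) <| List.cons (nat_lit 39652) <| List.cons (nat_lit 20449) <| List.cons (nat_lit 37985) <| List.cons (nat_lit 48616) <| List.nil) <|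
  List.cons (nat_lit 10520, nat_lit 0, List.cons (nat_lit 35787) <| List.cons (nat_lit 9915) <| List.cons (nat_lit 60748) <| List.cons (nat_lit 18890) <| List.cons (nat_lit 24728) <| List.cons (nat_lit 60512) <| List.nil) <|
  List.cons (nat_lit 11021, nat_lit 0, List.cons (nat_lit 32194) <| List.cons (nat_lit 60147) <| List.cons (nat_lit 44403) <| List.cons (nat_lit 21412) <| List.cons (nat_lit 28802) <| List.cons (nat_lit 360) <| List.nil) <|
  List.cons (nat_lit 11522, nat_lit 0, List.cons (nat_lit 29452) <| List.cons (nat_lit 940) <| List.cons (nat_lit 13800) <| List.cons (nat_lit 44890) <| List.cons (nat_lit 44160) <| List.nil) <|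
  List.cons (nat_lit 12023, nat_lit 0, List.cons (nat_lit 64083) <| List.cons (nat_lit 5476) <| List.cons (nat_lit 34852) <| List.cons (nat_lit 56274) <| List.cons (nat_lit 17976) <| List.nil) <|
  List.cons (nat_lit 12524, nat_lit 0, List.cons (nat_lit 29883) <| List.cons (nat_lit 37995) <| List.cons (nat_lit 39244) <| List.cons (nat_lit 51482) <| List.cons (nat_lit 33896) <| List.cons (nat_lit 38256) <| List.nil) <|
  List.cons (nat_lit 13025, nat_lit 0, List.cons (nat_lit 38883) <| List.cons (nat_lit 27604) <| List.cons (nat_lit 46273) <| List.cons (nat_lit 11043) <| List.cons (nat_lit 44530) <| List.cons (nat_lit 50345) <| List.nil) <|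
  List.cons (nat_lit 13526, nat_lit 0, List.cons (nat_lit 1515) <| List.cons (nat_lit 9915) <| List.cons (nat_lit 16684) <| List.cons (nat_lit 40442) <| List.cons (nat_lit 952) <| List.cons (nat_lit 62641) <| List.nil) <|
  List.cons (nat_lit 14027, nat_lit 0, List.cons (nat_lit 29010) <| List.cons (nat_lit 51603) <| List.cons (nat_lit 14835) <| List.cons (nat_lit 3940) <| List.cons (nat_lit 63264) <| List.cons (nat_lit 40648) <| List.nil) <|
  List.cons (nat_lit 14528, nat_lit 0, List.cons (nat_lit 2907) <| List.cons (nat_lit 6315) <| List.cons (nat_lit 10253) <| List.cons (nat_lit 17753) <| List.cons (nat_lit 37984) <| List.nil) <|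
  List.cons (nat_lit 15029, nat_lit 0, List.cons (nat_lit 62355) <| List.cons (nat_lit 6868) <| List.cons (nat_lit 32020) <| List.cons (nat_lit 21616) <| List.cons (nat_lit 51795) <| List.cons (nat_lit 16153) <| List.nil) <|
  List.cons (nat_lit 15530, nat_lit 0, List.cons (nat_lit 16266) <| List.cons (nat_lit 2860) <| List.cons (nat_lit 15196) <| List.cons (nat_lit 41164) <| List.cons (nat_lit 35841) <| List.nil) <|
  List.cons (nat_lit 16031, nat_lit 0, List.cons (nat_lit 4131) <| List.cons (nat_lit 1057) <| List.cons (nat_lit 14692) <| List.cons (nat_lit 26593) <| List.cons (nat_lit 23729) <| List.cons (nat_lit 29192) <| List.nil) <|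
  List.cons (nat_lit 16532, nat_lit 0, List.cons (nat_lit 58300) <| List.cons (nat_lit 17356) <| List.cons (nat_lit 55850) <| List.cons (nat_lit 5272) <| List.cons (nat_lit 64736) <| List.nil) <|
  List.cons (nat_lit 17033, nat_lit 0, List.cons (nat_lit 58275) <| List.cons (nat_lit 10562) <| List.cons (nat_lit 32788) <| List.cons (nat_lit 16610) <| List.cons (nat_lit 29648) <| List.cons (nat_lit 43394) <| List.cons (nat_lit 47576) <| List.nil) <|
  List.cons (nat_lit 17534, nat_lit 0, List.cons (nat_lit 49660) <| List.cons (nat_lit 3052) <| List.cons (nat_lit 56523) <| List.cons (nat_lit 23130) <| List.cons (nat_lit 62369) <| List.nil) <|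
  List.cons (nat_lit 18035, nat_lit 0, List.cons (nat_lit 41715) <| List.cons (nat_lit 13348) <| List.cons (nat_lit 5332) <| List.cons (nat_lit 31856) <| List.cons (nat_lit 19961) <| List.cons (nat_lit 45794) <| List.nil) <|
  List.cons (nat_lit 18536, nat_lit 0, List.cons (nat_lit 411) <| List.cons (nat_lit 10923) <| List.cons (nat_lit 13948) <| List.cons (nat_lit 32521) <| List.cons (nat_lit 22553) <| List.cons (nat_lit 8641) <| List.nil) <|
  List.cons (nat_lit 19037, nat_lit 0, List.cons (nat_lit 60531) <| List.cons (nat_lit 16372) <| List.cons (nat_lit 42196) <| List.cons (nat_lit 15472) <| List.cons (nat_lit 35761) <| List.cons (nat_lit 55609) <| List.nil) <|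
  List.cons (nat_lit 19538, nat_lit 0, List.cons (nat_lit 13227) <| List.cons (nat_lit 34684) <| List.cons (nat_lit 20908) <| List.cons (nat_lit 52682) <| List.cons (nat_lit 34504) <| List.cons (nat_lit 58529) <| List.nil) <|
  List.cons (nat_lit 20039, nat_lit 0, List.cons (nat_lit 32740) <| List.cons (nat_lit 34516) <| List.cons (nat_lit 38834) <| List.cons (nat_lit 32672) <| List.cons (nat_lit 45561) <| List.nil) <|
  anc1

/-- witnesses -/
def wit : List ℕ :=
  List.cons (nat_lit 1) <| List.cons (nat_lit 2) <| List.cons (nat_lit 6) <| List.cons (nat_lit 12) <| List.cons (nat_lit 18) <| List.cons (nat_lit 24) <| List.cons (nat_lit 30) <| List.cons (nat_lit 36) <| List.cons (nat_lit 42) <| List.cons (nat_lit 54) <| List.cons (nat_lit 60) <| List.cons (nat_lit 72) <| List.cons (nat_lit 84) <| List.cons (nat_lit 90) <| List.cons (nat_lit 138) <| List.cons (nat_lit 156) <| List.cons (nat_lit 168) <| List.cons (nat_lit 228) <| List.cons (nat_lit 252) <| List.cons (nat_lit 276) <| List.cons (nat_lit 294) <| List.cons (nat_lit 366) <| List.cons (nat_lit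 372) <| List.cons (nat_lit 384) <| List.cons (nat_lit 402) <| List.cons (nat_lit 432) <| List.cons (nat_lit 612) <| List.cons (nat_lit 642) <| List.cons (nat_lit 768) <| List.cons (nat_lit 780) <| List.cons (nat_lit 822) <| List.cons (nat_lit 1146) <| List.cons (nat_lit 1308) <| List.nil

theorem num1 : A.numOK = true := by decide +kernel

theorem num2 : A.numOK2 (nat_lit 8600) (nat_lit 8600) (nat_lit 1) (nat_lit 9168) (nat_lit 1308) = true := by decide +kernel

theorem ancOK : A.ancs (nat_lit 8600) (nat_lit 8600) (nat_lit 247152) anc0 (nat_lit 0) = true := by decide +kernel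

theorem devOK : A.devchk (nat_lit 8600) (nat_lit 1) = true := by decide +kernel

theorem leaOK : A.lea (nat_lit 256308) wit = true := by decide +kernel

theorem bndOK : bndW (nat_lit 1308) wit = true := by decide +kernel

theorem vOK : A.v1 = true := by decide +kernel

end Pool.Agent.H70.AB.W76
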