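import Pool.Agent.H70.AB.W76.Data

/-!
# Direct checks W76, part 2
-/

namespace Pool.Agent.H70.AB.W76

theorem dir44 : A.chkR (nat_lit 4401) (nat_lit 100) = true := by decide +kernel

theorem dir45 : A.chkR (nat_lit 4501) (nat_lit 100) = true := by decide +kernel

theorem dir46 : A.chkR (nat_lit 4601) (nat_lit 100) = true := by decide +kernel

theorem dir47 : A.chkR (nat_lit 4701) (nat_lit 100) = true := by decide +kernel

theorem dir48 : A.chkR (nat_lit 4801) (nat_lit 100) = true := by decide +kernel

theorem dir49 : A.chkR (nat_lit 4901) (nat_lit 100) = true := by decide +kernel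

theorem dir50 : A.chkR (nat_lit 5001) (nat_lit 100) = true := by decide +kernel

theorem dir51 : A.chkR (nat_lit 5101) (nat_lit 100) = true := by decide +kernel

theorem dir52 : A.chkR (nat_lit 5201) (nat_lit 100) = true := by decide +kernel

theorem dir53 : A.chkR (nat_lit 5301) (nat_lit 100) = true := by decide +kernel

theorem dir54 : A.chkR (nat_lit 5401) (nat_lit 100) = true := by decide +kernel

theorem dir55 : A.chkR (nat_lit 5501) (nat_lit 100) = true := by decide +kernel

theorem dir56 : A.chkR (nat_lit 5601) (nat_lit 100) = true := by decide +kernel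

theorem dir57 : A.chkR (nat_lit 5701) (nat_lit 100) = true := by decide +kernel

theorem dir58 : A.chkR (nat_lit 5801) (nat_lit 100) = true := by decide +kernel

theorem dir59 : A.chkR (nat_lit 5901) (nat_lit 100) = true := by decide +kernel

theorem dir60 : A.chkR (nat_lit 6001) (nat_lit 100) = true := by decide +kernel

theorem dir61 : A.chkR (nat_lit 6101) (nat_lit 100) = true := by decide +kernel

theorem dir62 : A.chkR (nat_lit 6201) (nat_lit 100) = true := by decide +kernel

theorem dir63 : A.chkR (nat_lit 6301) (nat_lit 100) = true := by decide +kernel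

theorem dir64 : A.chkR (nat_lit 6401) (nat_lit 100) = true := by decide +kernel

theorem dir65 : A.chkR (nat_lit 6501) (nat_lit 100) = true := by decide +kernel


end Pool.Agent.H70.AB.W76
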