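import Pool.Agent.H70.AB.W76.Data

/-!
# Direct checks W76, part 3
-/

namespace Pool.Agent.H70.AB.W76

theorem dir66 : A.chkR (nat_lit 6601) (nat_lit 100) = true := by decide +kernel

theorem dir67 : A.chkR (nat_lit 6701) (nat_lit 100) = true := by decide +kernel

theorem dir68 : A.chkR (nat_lit 6801) (nat_lit 100) = true := by decide +kernel

theorem dir69 : A.chkR (nat_lit 6901) (nat_lit 100) = true := by decide +kernel

theorem dir70 : A.chkR (nat_lit 7001) (nat_lit 100) = true := by decide +kernel

theorem dir71 : A.chkR (nat_lit 7101) (nat_lit 100) = true := by decide +kernel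

theorem dir72 : A.chkR (nat_lit 7201) (nat_lit 100) = true := by decide +kernel

theorem dir73 : A.chkR (nat_lit 7301) (nat_lit 100) = true := by decide +kernel

theorem dir74 : A.chkR (nat_lit 7401) (nat_lit 100) = true := by decide +kernel

theorem dir75 : A.chkR (nat_lit 7501) (nat_lit 100) = true := by decide +kernel

theorem dir76 : A.chkR (nat_lit 7601) (nat_lit 100) = true := by decide +kernel

theorem dir77 : A.chkR (nat_lit 7701) (nat_lit 100) = true := by decide +kernel

theorem dir78 : A.chkR (nat_lit 7801) (nat_lit 100) = true := by decide +kernel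

theorem dir79 : A.chkR (nat_lit 7901) (nat_lit 100) = true := by decide +kernel

theorem dir80 : A.chkR (nat_lit 8001) (nat_lit 100) = true := by decide +kernel

theorem dir81 : A.chkR (nat_lit 8101) (nat_lit 100) = true := by decide +kernel

theorem dir82 : A.chkR (nat_lit 8201) (nat_lit 100) = true := by decide +kernel

theorem dir83 : A.chkR (nat_lit 8301) (nat_lit 100) = true := by decide +kernel

theorem dir84 : A.chkR (nat_lit 8401) (nat_lit 100) = true := by decide +kernel

theorem dir85 : A.chkR (nat_lit 8501) (nat_lit 99) = true := by decide +kernel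


end Pool.Agent.H70.AB.W76
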