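import Pool.Agent.H70.AB.Sound
import Pool.Agent.H70.AB.Reg
import Pool.Agent.H70.AB.W76.Cert
import Pool.Agent.H70.AB.W76.Dir0
import Pool.Agent.H70.AB.W76.Dir1
import Pool.Agent.H70.AB.W76.Dir2
import Pool.Agent.H70.AB.W76.Dir3

/-!
# Conclusion W76
-/

namespace Pool.Agent.H70.AB.W76

theorem dirAll : ∀ m, 0 < m → m < 8600 → A.chk m = true := by
  intro m h1 h2
  by_cases h : m < 101
  · exact chkR_sound A 1 100 dir0 m (by omega) (by omega)
  push Not at h
  by_cases h : m < 201
  · exact chkR_sound A 101 100 dir1 m (by omega) (by omega)
  push Not at h
  by_cases h : m < 301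
  · exact chkR_sound A 201 100 dir2 m (by omega) (by omega)
  push Not at h
  by_cases h : m < 401
  · exact chkR_sound A 301 100 dir3 m (by omega) (by omega)
  push Not at h
  by_cases h : m < 501
  · exact chkR_sound A 401 100 dir4 m (by omega) (by omega)
  push Not at h
  by_cases h : m < 601
  · exact chkR_sound A 501 100 dir5 m (by omega) (by omega)
  push Not at h
  by_cases h : m < 701
  · exact chkR_sound A 601 100 dir6 m (by omega) (by omega)
  push Not at h
  by_cases h : m < 801
  · exact chkR_sound A 701 100 dir7 m (by omega) (by omega)
  push Not at h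
  by_cases h : m < 901
  · exact chkR_sound A 801 100 dir8 m (by omega) (by omega)
  push Not at h
  by_cases h : m < 1001
  · exact chkR_sound A 901 100 dir9 m (by omega) (by omega)
  push Not at h
  by_cases h : m < 1101
  · exact chkR_sound A 1001 100 dir10 m (by omega) (by omega)
  push Not at h
  by_cases h : m < 1201
  · exact chkR_sound A 1101 100 dir11 m (by omega) (by omega)
  push Not at h
  by_cases h : m < 1301
  · exact chkR_sound A 1201 100 dir12 m (by omega) (by omega)
  push Not at h
  by_cases h : m < 1401
  · exact chkR_sound A 1301 100 dir13 m (by omega) (by omega)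
  push Not at h
  by_cases h : m < 1501
  · exact chkR_sound A 1401 100 dir14 m (by omega) (by omega)
  push Not at h
  by_cases h : m < 1601
  · exact chkR_sound A 1501 100 dir15 m (by omega) (by omega)
  push Not at h
  by_cases h : m < 1701
  · exact chkR_sound A 1601 100 dir16 m (by omega) (by omega)
  push Not at h
  by_cases h : m < 1801
  · exact chkR_sound A 1701 100 dir17 m (by omega) (by omega)
  push Not at h
  by_cases h : m < 1901
  · exact chkR_sound A 1801 100 dir18 m (by omega) (by omega)
  push Not at h
  by_cases h : m < 2001
  · exact chkR_sound A 1901 100 dir19 m (by omega) (by omega)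
  push Not at h
  by_cases h : m < 2101
  · exact chkR_sound A 2001 100 dir20 m (by omega) (by omega)
  push Not at h
  by_cases h : m < 2201
  · exact chkR_sound A 2101 100 dir21 m (by omega) (by omega)
  push Not at h
  by_cases h : m < 2301
  · exact chkR_sound A 2201 100 dir22 m (by omega) (by omega)
  push Not at h
  by_cases h : m < 2401
  · exact chkR_sound A 2301 100 dir23 m (by omega) (by omega)
  push Not at h
  by_cases h : m < 2501
  · exact chkR_sound A 2401 100 dir24 m (by omega) (by omega)
  push Not at h
  by_cases h : m < 2601
  · exact chkR_sound A 2501 100 dir25 m (by omega) (by omega)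
  push Not at h
  by_cases h : m < 2701
  · exact chkR_sound A 2601 100 dir26 m (by omega) (by omega)
  push Not at h
  by_cases h : m < 2801
  · exact chkR_sound A 2701 100 dir27 m (by omega) (by omega)
  push Not at h
  by_cases h : m < 2901
  · exact chkR_sound A 2801 100 dir28 m (by omega) (by omega)
  push Not at h
  by_cases h : m < 3001
  · exact chkR_sound A 2901 100 dir29 m (by omega) (by omega)
  push Not at h
  by_cases h : m < 3101
  · exact chkR_sound A 3001 100 dir30 m (by omega) (by omega)
  push Not at h
  by_cases h : m < 3201
  · exact chkR_sound A 3101 100 dir31 m (by omega) (by omega)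
  push Not at h
  by_cases h : m < 3301
  · exact chkR_sound A 3201 100 dir32 m (by omega) (by omega)
  push Not at h
  by_cases h : m < 3401
  · exact chkR_sound A 3301 100 dir33 m (by omega) (by omega)
  push Not at h
  by_cases h : m < 3501
  · exact chkR_sound A 3401 100 dir34 m (by omega) (by omega)
  push Not at h
  by_cases h : m < 3601
  · exact chkR_sound A 3501 100 dir35 m (by omega) (by omega)
  push Not at h
  by_cases h : m < 3701
  · exact chkR_sound A 3601 100 dir36 m (by omega) (by omega)
  push Not at h
  by_cases h : m < 3801
  · exact chkR_sound A 3701 100 dir37 m (by omega) (by omega)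
  push Not at h
  by_cases h : m < 3901
  · exact chkR_sound A 3801 100 dir38 m (by omega) (by omega)
  push Not at h
  by_cases h : m < 4001
  · exact chkR_sound A 3901 100 dir39 m (by omega) (by omega)
  push Not at h
  by_cases h : m < 4101
  · exact chkR_sound A 4001 100 dir40 m (by omega) (by omega)
  push Not at h
  by_cases h : m < 4201
  · exact chkR_sound A 4101 100 dir41 m (by omega) (by omega)
  push Not at h
  by_cases h : m < 4301
  · exact chkR_sound A 4201 100 dir42 m (by omega) (by omega)
  push Not at h
  by_cases h : m < 4401
  · exact chkR_sound A 4301 100 dir43 m (by omega) (by omega)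
  push Not at h
  by_cases h : m < 4501
  · exact chkR_sound A 4401 100 dir44 m (by omega) (by omega)
  push Not at h
  by_cases h : m < 4601
  · exact chkR_sound A 4501 100 dir45 m (by omega) (by omega)
  push Not at h
  by_cases h : m < 4701
  · exact chkR_sound A 4601 100 dir46 m (by omega) (by omega)
  push Not at h
  by_cases h : m < 4801
  · exact chkR_sound A 4701 100 dir47 m (by omega) (by omega)
  push Not at h
  by_cases h : m < 4901
  · exact chkR_sound A 4801 100 dir48 m (by omega) (by omega)
  push Not at h
  by_cases h : m < 5001
  · exact chkR_sound A 4901 100 dir49 m (by omega) (by omega)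
  push Not at h
  by_cases h : m < 5101
  · exact chkR_sound A 5001 100 dir50 m (by omega) (by omega)
  push Not at h
  by_cases h : m < 5201
  · exact chkR_sound A 5101 100 dir51 m (by omega) (by omega)
  push Not at h
  by_cases h : m < 5301
  · exact chkR_sound A 5201 100 dir52 m (by omega) (by omega)
  push Not at h
  by_cases h : m < 5401
  · exact chkR_sound A 5301 100 dir53 m (by omega) (by omega)
  push Not at h
  by_cases h : m < 5501
  · exact chkR_sound A 5401 100 dir54 m (by omega) (by omega)
  push Not at h
  by_cases h : m < 5601
  · exact chkR_sound A 5501 100 dir55 m (by omega) (by omega)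
  push Not at h
  by_cases h : m < 5701
  · exact chkR_sound A 5601 100 dir56 m (by omega) (by omega)
  push Not at h
  by_cases h : m < 5801
  · exact chkR_sound A 5701 100 dir57 m (by omega) (by omega)
  push Not at h
  by_cases h : m < 5901
  · exact chkR_sound A 5801 100 dir58 m (by omega) (by omega)
  push Not at h
  by_cases h : m < 6001
  · exact chkR_sound A 5901 100 dir59 m (by omega) (by omega)
  push Not at h
  by_cases h : m < 6101
  · exact chkR_sound A 6001 100 dir60 m (by omega) (by omega)
  push Not at h
  by_cases h : m < 6201
  · exact chkR_sound A 6101 100 dir61 m (by omega) (by omega)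
  push Not at h
  by_cases h : m < 6301
  · exact chkR_sound A 6201 100 dir62 m (by omega) (by omega)
  push Not at h
  by_cases h : m < 6401
  · exact chkR_sound A 6301 100 dir63 m (by omega) (by omega)
  push Not at h
  by_cases h : m < 6501
  · exact chkR_sound A 6401 100 dir64 m (by omega) (by omega)
  push Not at h
  by_cases h : m < 6601
  · exact chkR_sound A 6501 100 dir65 m (by omega) (by omega)
  push Not at h
  by_cases h : m < 6701
  · exact chkR_sound A 6601 100 dir66 m (by omega) (by omega)
  push Not at h
  by_cases h : m < 6801
  · exact chkR_sound A 6701 100 dir67 m (by omega) (by omega)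
  push Not at h
  by_cases h : m < 6901
  · exact chkR_sound A 6801 100 dir68 m (by omega) (by omega)
  push Not at h
  by_cases h : m < 7001
  · exact chkR_sound A 6901 100 dir69 m (by omega) (by omega)
  push Not at h
  by_cases h : m < 7101
  · exact chkR_sound A 7001 100 dir70 m (by omega) (by omega)
  push Not at h
  by_cases h : m < 7201
  · exact chkR_sound A 7101 100 dir71 m (by omega) (by omega)
  push Not at h
  by_cases h : m < 7301
  · exact chkR_sound A 7201 100 dir72 m (by omega) (by omega)
  push Not at h
  by_cases h : m < 7401
  · exact chkR_sound A 7301 100 dir73 m (by omega) (by omega)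
  push Not at h
  by_cases h : m < 7501
  · exact chkR_sound A 7401 100 dir74 m (by omega) (by omega)
  push Not at h
  by_cases h : m < 7601
  · exact chkR_sound A 7501 100 dir75 m (by omega) (by omega)
  push Not at h
  by_cases h : m < 7701
  · exact chkR_sound A 7601 100 dir76 m (by omega) (by omega)
  push Not at h
  by_cases h : m < 7801
  · exact chkR_sound A 7701 100 dir77 m (by omega) (by omega)
  push Not at h
  by_cases h : m < 7901
  · exact chkR_sound A 7801 100 dir78 m (by omega) (by omega)
  push Not at h
  by_cases h : m < 8001
  · exact chkR_sound A 7901 100 dir79 m (by omega) (by omega)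
  push Not at h
  by_cases h : m < 8101
  · exact chkR_sound A 8001 100 dir80 m (by omega) (by omega)
  push Not at h
  by_cases h : m < 8201
  · exact chkR_sound A 8101 100 dir81 m (by omega) (by omega)
  push Not at h
  by_cases h : m < 8301
  · exact chkR_sound A 8201 100 dir82 m (by omega) (by omega)
  push Not at h
  by_cases h : m < 8401
  · exact chkR_sound A 8301 100 dir83 m (by omega) (by omega)
  push Not at h
  by_cases h : m < 8501
  · exact chkR_sound A 8401 100 dir84 m (by omega) (by omega)
  push Not at h
  exact chkR_sound A 8501 99 dir85 m (by omega) (by omega)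

theorem final : Str A.word 41190 247140 3 12 6 ∧ Avoids 6 1 A.word ∧
    ∀ u, Avoids 6 1 u → A.word = u ∨ ∃ n, (∀ j, j < n → A.word j = u j) ∧ A.word n < u n :=
  Dat.final (A := A) num1 num2 dirAll ancOK devOK (fun h => h.v1_sound vOK) leaOK bndOK

end Pool.Agent.H70.AB.W76
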